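import Pool.Agent.Helper78.DD.Geo

/-! # CAT: a Kuratowski-Ulam type argument -/

open MeasureTheory Topology Set

namespace Pool.Agent.Helper78.DD

private theorem cat_rat {U : Set ℝ} (hU : IsOpen U) (hne : U.Nonempty) :
    ∃ a b : ℚ, a < b ∧ Icc (a : ℝ) b ⊆ U := by
  obtain ⟨y, hy⟩ := hne
  obtain ⟨δ, hδ, hb⟩ := Metric.isOpen_iff.mp hU y hy
  obtain ⟨a, ha1, ha2⟩ := exists_rat_btwn (show y - δ < y by linarith)
  obtain ⟨b, hb1, hb2⟩ := exists_rat_btwn (show y < y + δ by linarith)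
  refine ⟨a, b, by exact_mod_cast ha2.trans hb1, fun t ht => hb ?_⟩
  rw [Metric.mem_ball, Real.dist_eq, abs_lt]
  constructor
  · linarith [ht.1]
  · linarith [ht.2]

theorem cat_phi {p x : ℂ} {O M : Set ℂ} (hO : IsOpen O) (hM : IsMeagre M) (hx : x ∈ O)
    (hv : x - p ∈ V) :
    ∃ r : ℝ, 0 < r ∧ ∀ Φ : Set ℝ,
      (∀ φ ∈ Φ, ∀ τ : ℝ, p + Th (φ, τ) ∈ O → p + Th (φ, τ) ∈ M) →
        IsMeagre (Φ ∩ Ioo ((Ps (x - p)).1 - r) ((Ps (x - p)).1 + r)) := by
  classical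
  set z0 : ℝ × ℝ := Ps (x - p) with hz0
  have hTh0 : Th z0 = x - p := Th_Ps hv
  have hcT : Continuous Th := contDiff_Th.continuous
  have hcp : Continuous fun z : ℝ × ℝ => p + Th z := continuous_const.add hcT
  set W : Set (ℝ × ℝ) := {z | (z.2 < z.1 ∧ z.1 - z.2 < Real.pi) ∧
    (|z.1 + z.2| < Real.pi ∧ p + Th z ∈ O)} with hW
  have hWo : IsOpen W := by
    have h1 : IsOpen {z : ℝ × ℝ | z.2 < z.1} := isOpen_lt continuous_snd continuous_fst
    have h2 : IsOpen {z : ℝ × ℝ | z.1 - z.2 < Real.pi} :=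
      isOpen_lt (continuous_fst.sub continuous_snd) continuous_const
    have h3 : IsOpen {z : ℝ × ℝ | |z.1 + z.2| < Real.pi} :=
      isOpen_lt (continuous_fst.add continuous_snd).abs continuous_const
    have h4 : IsOpen {z : ℝ × ℝ | p + Th z ∈ O} := hO.preimage hcp
    exact (h1.inter h2).inter (h3.inter h4)
  have hz0W : z0 ∈ W := by
    obtain ⟨h1, h2, h3⟩ := Ps_bounds hv
    refine ⟨⟨h1, h2⟩, h3, ?_⟩
    have : p + Th z0 = x := by rw [hTh0]; ring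
    rw [this]
    exact hx
  obtain ⟨r0, hr0, hball⟩ := Metric.isOpen_iff.mp hWo z0 hz0W
  set r : ℝ := r0 / 2 with hr
  have hrpos : 0 < r := by positivity
  have hbox : ∀ φ ∈ Icc (z0.1 - r) (z0.1 + r), ∀ τ ∈ Icc (z0.2 - r) (z0.2 + r), (φ, τ) ∈ W := by
    intro φ hφ τ hτ
    apply hball
    rw [Metric.mem_ball, Prod.dist_eq, max_lt_iff]
    refine ⟨?_, ?_⟩
    · rw [Real.dist_eq, abs_lt]
      constructor
      · linarith [hφ.1]
      · linarith [hφ.2]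
    · rw [Real.dist_eq, abs_lt]
      constructor
      · linarith [hτ.1]
      · linarith [hτ.2]
  obtain ⟨S, hS1, hS2, hS3⟩ := isMeagre_iff_countable_union_isNowhereDense.mp hM
  haveI : Countable S := hS2.to_subtype
  refine ⟨r, hrpos, fun Φ hΦ => ?_⟩
  -- the closed sets
  let C : S × {ab : ℚ × ℚ // (ab.1 : ℝ) < ab.2 ∧
      Icc (ab.1 : ℝ) ab.2 ⊆ Icc (z0.2 - r) (z0.2 + r)} → Set ℝ := fun i =>
    Icc (z0.1 - r) (z0.1 + r) ∩ ⋂ τ ∈ Icc (i.2.1.1 : ℝ) i.2.1.2,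
      {φ : ℝ | p + Th (φ, τ) ∈ closure i.1.1}
  have hCclosed : ∀ i, IsClosed (C i) := by
    intro i
    refine isClosed_Icc.inter (isClosed_biInter (fun τ _ => ?_))
    exact isClosed_closure.preimage (hcp.comp (continuous_id.prodMk continuous_const))
  have hCint : ∀ i, interior (C i) = ∅ := by
    intro i
    by_contra hne
    obtain ⟨φ0, hφ0⟩ := nonempty_iff_ne_empty.mpr hne
    obtain ⟨⟨t, ht⟩, ⟨⟨a, b⟩, hab, hIcc⟩⟩ := i
    simp only at hab hIcc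
    set B : Set (ℝ × ℝ) := interior (C (⟨t, ht⟩, ⟨(a, b), hab, hIcc⟩)) ×ˢ Ioo (a : ℝ) b with hB
    have hBo : IsOpen B := isOpen_interior.prod isOpen_Ioo
    have hBW : ∀ z ∈ B, z ∈ W ∧ p + Th z ∈ closure t := by
      rintro ⟨φ, τ⟩ ⟨h1, h2⟩
      have h3 := interior_subset h1
      have h4 : τ ∈ Icc (a : ℝ) b := Ioo_subset_Icc_self h2
      refine ⟨hbox φ h3.1 τ (hIcc h4), ?_⟩
      have h5 := mem_iInter₂.mp h3.2 τ h4
      exact h5
    have hPc : ContinuousOn Ps V := fun v hv' => (contDiffAt_Ps hv').continuousAt.continuousWithinAt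
    have hD : IsOpen ((fun v : ℂ => v - p) ⁻¹' (V ∩ Ps ⁻¹' B)) :=
      (hPc.isOpen_inter_preimage isOpen_V hBo).preimage (continuous_id.sub continuous_const)
    have hDsub : ((fun v : ℂ => v - p) ⁻¹' (V ∩ Ps ⁻¹' B)) ⊆ closure t := by
      intro v hvD
      obtain ⟨h1, h2⟩ := hvD
      have h3 := (hBW _ h2).2
      have h4 : p + Th (Ps (v - p)) = v := by rw [Th_Ps h1]; ring
      rw [h4] at h3
      exact h3
    have hmid : (φ0, ((a : ℝ) + b) / 2) ∈ B := by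
      refine ⟨hφ0, ?_, ?_⟩
      · simp only
        linarith
      · simp only
        linarith
    have hmW := (hBW _ hmid).1
    have hDne : p + Th (φ0, ((a : ℝ) + b) / 2) ∈
        ((fun v : ℂ => v - p) ⁻¹' (V ∩ Ps ⁻¹' B)) := by
      have e1 : p + Th (φ0, ((a : ℝ) + b) / 2) - p = Th (φ0, ((a : ℝ) + b) / 2) := by ring
      refine ⟨?_, ?_⟩
      · change p + Th (φ0, ((a : ℝ) + b) / 2) - p ∈ V
        rw [e1]
        exact Th_mem_V hmW.1.1 hmW.1.2 hmW.2.1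
      · change Ps (p + Th (φ0, ((a : ℝ) + b) / 2) - p) ∈ B
        rw [e1, Ps_Th hmW.1.1 hmW.1.2 hmW.2.1]
        exact hmid
    have h6 := interior_maximal hDsub hD hDne
    have h7 : interior (closure t) = ∅ := hS1 t ht
    rw [h7] at h6
    exact h6
  have hCm : ∀ i, IsMeagre (C i) := fun i =>
    ((hCclosed i).isNowhereDense_iff.mpr (hCint i)).isMeagre
  refine (isMeagre_iUnion hCm).mono ?_
  rintro φ ⟨hφΦ, hφI⟩
  have hφI' : φ ∈ Icc (z0.1 - r) (z0.1 + r) := Ioo_subset_Icc_self hφI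
  -- Baire on the vertical segment
  let T : S → Set ℝ := fun t => Icc (z0.2 - r) (z0.2 + r) ∩ {τ : ℝ | p + Th (φ, τ) ∈ closure t.1}
  have hTclosed : ∀ t, IsClosed (T t) := by
    intro t
    refine isClosed_Icc.inter ?_
    exact isClosed_closure.preimage (hcp.comp (continuous_const.prodMk continuous_id))
  have hex : ∃ t : S, (interior (T t)).Nonempty := by
    by_contra hno
    push Not at hno
    have h1 : IsMeagre (⋃ t, T t) := by
      refine isMeagre_iUnion (fun t => ?_)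
      exact ((hTclosed t).isNowhereDense_iff.mpr (hno t)).isMeagre
    have h2 : Ioo (z0.2 - r) (z0.2 + r) ⊆ ⋃ t, T t := by
      intro τ hτ
      have hτ' : τ ∈ Icc (z0.2 - r) (z0.2 + r) := Ioo_subset_Icc_self hτ
      have h3 := hbox φ hφI' τ hτ'
      have h4 := hS3 (hΦ φ hφΦ τ h3.2.2)
      obtain ⟨t, ht, h5⟩ := h4
      exact mem_iUnion.mpr ⟨⟨t, ht⟩, hτ', subset_closure h5⟩
    have h3 : ¬ IsMeagre (Ioo (z0.2 - r) (z0.2 + r)) :=
      not_isMeagre_of_isOpen isOpen_Ioo (nonempty_Ioo.mpr (by linarith))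
    exact h3 (h1.mono h2)
  obtain ⟨t, htne⟩ := hex
  obtain ⟨a, b, hab, hsub⟩ := cat_rat isOpen_interior htne
  have hsub' : Icc (a : ℝ) b ⊆ T t := hsub.trans interior_subset
  refine mem_iUnion.mpr ⟨(t, ⟨(a, b), by exact_mod_cast hab, fun y hy => (hsub' hy).1⟩), hφI', ?_⟩
  refine mem_iInter₂.mpr (fun τ hτ => ?_)
  exact (hsub' hτ).2

theorem cat_pre {h : ℝ → ℝ} {a b : ℝ} (hab : a < b) (hc : ContinuousOn h (Ioo a b))
    (hi : InjOn h (Ioo a b)) {F : Set ℝ} (hF : IsMeagre F) : IsMeagre (Ioo a b ∩ h ⁻¹' F) := by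
  classical
  obtain ⟨S, hS1, hS2, hS3⟩ := isMeagre_iff_countable_union_isNowhereDense.mp hF
  haveI : Countable S := hS2.to_subtype
  let C : S × {cd : ℚ × ℚ // Icc (cd.1 : ℝ) cd.2 ⊆ Ioo a b} → Set ℝ := fun i =>
    Icc (i.2.1.1 : ℝ) i.2.1.2 ∩ h ⁻¹' (closure i.1.1)
  have hCm : ∀ i, IsMeagre (C i) := by
    rintro ⟨⟨t, ht⟩, ⟨⟨c, d⟩, hcd⟩⟩
    have hcl : IsClosed (C (⟨t, ht⟩, ⟨(c, d), hcd⟩)) :=
      (hc.mono hcd).preimage_isClosed_of_isClosed isClosed_Icc isClosed_closure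
    refine (hcl.isNowhereDense_iff.mpr ?_).isMeagre
    by_contra hne
    obtain ⟨a', b', hab', hsub⟩ := cat_rat isOpen_interior (nonempty_iff_ne_empty.mpr hne)
    have hsub' : Icc (a' : ℝ) b' ⊆ C (⟨t, ht⟩, ⟨(c, d), hcd⟩) := hsub.trans interior_subset
    have hlt : (a' : ℝ) < b' := by exact_mod_cast hab'
    have hsubI : Icc (a' : ℝ) b' ⊆ Ioo a b := fun y hy => hcd (hsub' hy).1
    have h1 : h a' ≠ h b' := fun heq =>
      hlt.ne (hi (hsubI (left_mem_Icc.mpr hlt.le)) (hsubI (right_mem_Icc.mpr hlt.le)) heq)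
    have h2 : uIcc (h a') (h b') ⊆ closure t := by
      have h3 : ContinuousOn h (uIcc (a' : ℝ) b') := by
        rw [uIcc_of_le hlt.le]
        exact hc.mono hsubI
      refine (intermediate_value_uIcc h3).trans ?_
      rw [uIcc_of_le hlt.le]
      rintro _ ⟨y, hy, rfl⟩
      exact (hsub' hy).2
    have h4 : Ioo (min (h a') (h b')) (max (h a') (h b')) ⊆ closure t :=
      Ioo_subset_Icc_self.trans h2
    have h5 := interior_maximal h4 isOpen_Ioo
    have h6 : interior (closure t) = ∅ := hS1 t ht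
    rw [h6] at h5
    have h7 : (Ioo (min (h a') (h b')) (max (h a') (h b'))).Nonempty :=
      nonempty_Ioo.mpr (min_lt_max.mpr h1)
    obtain ⟨y, hy⟩ := h7
    exact h5 hy
  refine (isMeagre_iUnion hCm).mono ?_
  rintro y ⟨hy1, hy2⟩
  obtain ⟨t, ht, hyt⟩ := hS3 hy2
  obtain ⟨c, hc1, hc2⟩ := exists_rat_btwn hy1.1
  obtain ⟨d, hd1, hd2⟩ := exists_rat_btwn hy1.2
  refine mem_iUnion.mpr ⟨(⟨t, ht⟩, ⟨(c, d), ?_⟩), ⟨hc2.le, hd1.le⟩, subset_closure hyt⟩
  intro s hs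
  exact ⟨lt_of_lt_of_le hc1 hs.1, lt_of_le_of_lt hs.2 hd2⟩

end Pool.Agent.Helper78.DD
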