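import Pool.Agent.Helper78.DD.Geo

/-!
# COL: a Borel everywhere dense proper 4-colouring of two small discs
-/

open MeasureTheory Topology Set

namespace Pool.Agent.Helper78.DD

namespace ColAux

theorem common_countable {x x' : ℂ} (h : x ≠ x') :
    {y : ℂ | dist y x = 1 ∧ dist y x' = 1}.Countable := by
  by_cases hs : {y : ℂ | dist y x = 1 ∧ dist y x' = 1}.Subsingleton
  · exact hs.finite.countable
  · rw [Set.not_subsingleton_iff] at hs
    obtain ⟨p₁, hp₁, p₂, hp₂, hne⟩ := hs
    refine Set.Countable.mono (s₂ := {p₁, p₂}) ?_ (Set.toFinite _).countable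
    intro p hp
    exact EuclideanGeometry.eq_of_dist_eq_of_dist_eq_of_finrank_eq_two
      Complex.finrank_real_complex h hne hp₁.1 hp₂.1 hp.1 hp₁.2 hp₂.2 hp.2

/-- one closure step -/
def stp (S : Set ℂ) : Set ℂ :=
  S ∪ {y | ∃ x ∈ S, ∃ x' ∈ S, x ≠ x' ∧ dist y x = 1 ∧ dist y x' = 1}

theorem stp_countable {S : Set ℂ} (hS : S.Countable) : (stp S).Countable := by
  refine hS.union ?_
  have : {y | ∃ x ∈ S, ∃ x' ∈ S, x ≠ x' ∧ dist y x = 1 ∧ dist y x' = 1} ⊆
      ⋃ x ∈ S, ⋃ x' ∈ S, {y : ℂ | x ≠ x' ∧ dist y x = 1 ∧ dist y x' = 1} := by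
    rintro y ⟨x, hx, x', hx', h1, h2, h3⟩
    simp only [mem_iUnion]
    exact ⟨x, hx, x', hx', h1, h2, h3⟩
  refine Set.Countable.mono this (hS.biUnion fun x _ => hS.biUnion fun x' _ => ?_)
  by_cases h : x = x'
  · subst h
    refine Set.Countable.mono (s₂ := ∅) ?_ countable_empty
    rintro y ⟨h1, -⟩
    exact (h1 rfl).elim
  · refine Set.Countable.mono ?_ (common_countable h)
    rintro y ⟨-, h2, h3⟩
    exact ⟨h2, h3⟩

/-- the closed countable set -/
def KK (S : Set ℂ) : Set ℂ := ⋃ n : ℕ, stp^[n] S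

theorem stp_mono_iter (S : Set ℂ) : Monotone fun n : ℕ => stp^[n] S := by
  apply monotone_nat_of_le_succ
  intro n
  rw [Function.iterate_succ_apply']
  exact subset_union_left

theorem KK_countable {S : Set ℂ} (hS : S.Countable) : (KK S).Countable := by
  refine countable_iUnion fun n => ?_
  induction n with
  | zero => exact hS
  | succ n ih =>
    rw [Function.iterate_succ_apply']
    exact stp_countable ih

theorem subset_KK (S : Set ℂ) : S ⊆ KK S := fun _ hx => mem_iUnion.2 ⟨0, hx⟩

theorem KK_closed {S : Set ℂ} {x x' y : ℂ} (hx : x ∈ KK S) (hx' : x' ∈ KK S) (h : x ≠ x')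
    (h1 : dist y x = 1) (h2 : dist y x' = 1) : y ∈ KK S := by
  obtain ⟨n, hn⟩ := mem_iUnion.1 hx
  obtain ⟨m, hm⟩ := mem_iUnion.1 hx'
  refine mem_iUnion.2 ⟨max n m + 1, ?_⟩
  rw [Function.iterate_succ_apply']
  exact Or.inr ⟨x, stp_mono_iter S (le_max_left n m) hn, x', stp_mono_iter S (le_max_right n m) hm,
    h, h1, h2⟩

/-- points of an open set which avoid a countable set and countably many unit circles -/
theorem exists_avoid {U K N : Set ℂ} (hU : IsOpen U) (hne : U.Nonempty) (hK : K.Countable)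
    (hN : N.Countable) : ∃ x ∈ U, x ∉ K ∧ ∀ y ∈ N, dist x y ≠ 1 := by
  have h1 : 0 < (volume : Measure ℂ) U := hU.measure_pos _ hne
  have h2 : (volume : Measure ℂ) (K ∪ ⋃ y ∈ N, Metric.sphere y 1) = 0 := by
    apply measure_union_null (hK.measure_zero _)
    rw [measure_biUnion_null_iff hN]
    intro y _
    exact Measure.addHaar_sphere _ _ _
  by_contra hcon
  push Not at hcon
  have h3 : U ⊆ K ∪ ⋃ y ∈ N, Metric.sphere y 1 := by
    intro x hx
    by_cases hxK : x ∈ K
    · exact Or.inl hxK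
    · obtain ⟨y, hy, hxy⟩ := hcon x hx hxK
      refine Or.inr ?_
      simp only [mem_iUnion]
      exact ⟨y, hy, hxy⟩
  exact absurd (measure_mono_null h3 h2) h1.ne'

/-- points of an open set outside a countable set on a unit circle with centre in a dense set -/
theorem exists_on {U W K N : Set ℂ} {a u : ℂ} (hU : IsOpen U) (ha : a ∈ U) (hW : IsOpen W)
    (hau : a + u ∈ W) (hu : ‖u‖ = 1) (hK : K.Countable) (hN : Dense N) :
    ∃ x ∈ U, x ∉ K ∧ ∃ y ∈ W, y ∈ N ∧ dist x y = 1 := by
  -- the centre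
  have hUW : IsOpen ((fun y : ℂ => y - u) ⁻¹' U ∩ W) :=
    (hU.preimage (by fun_prop)).inter hW
  obtain ⟨y, hy, hyN⟩ := hN.inter_open_nonempty _ hUW ⟨a + u, by simpa using ha, hau⟩
  have hyU : y - u ∈ U := hy.1
  have hcont : Continuous fun t : ℝ => y - u * Complex.exp (t * Complex.I) := by fun_prop
  have hop : IsOpen ((fun t : ℝ => y - u * Complex.exp (t * Complex.I)) ⁻¹' U) :=
    hU.preimage hcont
  have h0 : (0 : ℝ) ∈ ((fun t : ℝ => y - u * Complex.exp (t * Complex.I)) ⁻¹' U) := by
    simpa using hyU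
  obtain ⟨η, hη, hball⟩ := Metric.isOpen_iff.1 hop 0 h0
  have hu0 : u ≠ 0 := by
    intro h
    rw [h, norm_zero] at hu
    exact zero_ne_one hu
  by_contra hcon
  push Not at hcon
  have hsub : ∀ t ∈ Ioo (0 : ℝ) (min η 1), y - u * Complex.exp (t * Complex.I) ∈ K := by
    intro t ht
    by_contra hK'
    have htU : y - u * Complex.exp (t * Complex.I) ∈ U := by
      apply hball
      rw [Metric.mem_ball, Real.dist_eq, sub_zero, abs_of_pos ht.1]
      exact ht.2.trans_le (min_le_left _ _)
    refine hcon _ htU hK' y hy.2 hyN ?_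
    rw [dist_eq_norm]
    have : y - u * Complex.exp (t * Complex.I) - y = -(u * Complex.exp (t * Complex.I)) := by ring
    rw [this, norm_neg, norm_mul, hu, Complex.norm_exp_ofReal_mul_I, one_mul]
  have hinj : InjOn (fun t : ℝ => y - u * Complex.exp (t * Complex.I)) (Ioo (0 : ℝ) (min η 1)) := by
    intro s hs t ht hst
    have h1 : Complex.exp (s * Complex.I) = Complex.exp (t * Complex.I) := by
      have h2 : u * Complex.exp (s * Complex.I) = u * Complex.exp (t * Complex.I) := by
        have h3 : y - u * Complex.exp (s * Complex.I) = y - u * Complex.exp (t * Complex.I) := hst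
        exact sub_right_injective h3
      exact mul_left_cancel₀ hu0 h2
    have hs1 : s < 1 := hs.2.trans_le (min_le_right _ _)
    have ht1 : t < 1 := ht.2.trans_le (min_le_right _ _)
    have hpi := Real.pi_gt_three
    have hs0 := hs.1
    have ht0 := ht.1
    have h2 := Complex.exp_inj_of_neg_pi_lt_of_le_pi (by simp; linarith) (by simp; linarith)
      (by simp; linarith) (by simp; linarith) h1
    have h3 := congrArg Complex.im h2
    simpa using h3
  have hmaps : MapsTo (fun t : ℝ => y - u * Complex.exp (t * Complex.I))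
      (Ioo (0 : ℝ) (min η 1)) K := hsub
  have hcount : (Ioo (0 : ℝ) (min η 1)).Countable := hmaps.countable_of_injOn hinj hK
  have h4 : volume (Ioo (0 : ℝ) (min η 1)) = 0 := hcount.measure_zero _
  rw [Real.volume_Ioo, ENNReal.ofReal_eq_zero] at h4
  have : 0 < min η 1 := lt_min hη one_pos
  linarith

end ColAux

open ColAux

open Classical in
theorem exists_four (ε : ℝ) (h0 : 0 < ε) (h1 : ε < 1 / 2) :
    ∃ c : P ε → Fin 4, IsED (P ε) c ∧ ∀ i, MeasurableSet (cls c i) := by
  obtain ⟨D, hDc, hD⟩ := TopologicalSpace.exists_countable_dense ℂ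
  obtain ⟨D', hD's, hD'c, hD'⟩ := (hDc.dense_compl ℝ).exists_countable_dense_subset
  have hdisj : ∀ x ∈ D, x ∉ D' := fun x hx hx' => hD's hx' hx
  set K := KK (D ∪ D') with hKdef
  have hKc : K.Countable := KK_countable (hDc.union hD'c)
  have hDK : ∀ x ∈ D, x ∈ K := fun x hx => subset_KK _ (Or.inl hx)
  have hD'K : ∀ x ∈ D', x ∈ K := fun x hx => subset_KK _ (Or.inr hx)
  -- the neighbour sets
  set A : Set ℂ := Metric.ball 0 ε with hA
  set B : Set ℂ := Metric.ball 1 ε with hB
  have hAB : ∀ x ∈ A, x ∉ B := by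
    intro x hx hx'
    rw [hA, Metric.mem_ball] at hx
    rw [hB, Metric.mem_ball] at hx'
    have h2 := dist_triangle_left (0 : ℂ) 1 x
    have h3 : dist (0 : ℂ) 1 = 1 := by simp
    linarith
  have hAA : ∀ x ∈ A, ∀ y ∈ A, dist x y ≠ 1 := by
    intro x hx y hy h
    rw [hA, Metric.mem_ball] at hx hy
    have h2 := dist_triangle_right x y 0
    linarith
  have hBB : ∀ x ∈ B, ∀ y ∈ B, dist x y ≠ 1 := by
    intro x hx y hy h
    rw [hB, Metric.mem_ball] at hx hy
    have h2 := dist_triangle_right x y 1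
    linarith
  set NB : Set ℂ := {x | ∃ y ∈ B ∩ (K \ D'), dist x y = 1} with hNB
  set NA : Set ℂ := {x | ∃ y ∈ A ∩ (K \ D'), dist x y = 1} with hNA
  set col : ℂ → Fin 4 := fun x =>
    if x ∈ A then (if x ∈ K then (if x ∈ D' then 3 else 2) else (if x ∈ NB then 1 else 0))
    else (if x ∈ K then (if x ∈ D' then 1 else 0) else (if x ∈ NA then 3 else 2)) with hcol
  have mN : ∀ S : Set ℂ, S.Countable → MeasurableSet {x : ℂ | ∃ y ∈ S, dist x y = 1} := by
    intro S hS
    have : {x : ℂ | ∃ y ∈ S, dist x y = 1} = ⋃ y ∈ S, Metric.sphere y 1 := by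
      ext x
      simp only [mem_ofPred_eq, mem_iUnion, Metric.mem_sphere, exists_prop]
    rw [this]
    exact MeasurableSet.biUnion hS fun y _ => Metric.isClosed_sphere.measurableSet
  have mNB : MeasurableSet NB := mN _ ((hKc.mono sdiff_subset).mono inter_subset_right)
  have mNA : MeasurableSet NA := mN _ ((hKc.mono sdiff_subset).mono inter_subset_right)
  have mcol : Measurable col := by
    apply Measurable.ite Metric.isOpen_ball.measurableSet
    · apply Measurable.ite hKc.measurableSet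
      · exact Measurable.ite hD'c.measurableSet measurable_const measurable_const
      · exact Measurable.ite mNB measurable_const measurable_const
    · apply Measurable.ite hKc.measurableSet
      · exact Measurable.ite hD'c.measurableSet measurable_const measurable_const
      · exact Measurable.ite mNA measurable_const measurable_const
  -- properness for `x ∈ A`, `y ∈ B`
  have key : ∀ x ∈ A, ∀ y ∈ B, dist x y = 1 → col x ≠ col y := by
    intro x hx y hy hxy
    have hyA : y ∉ A := fun h => hAB y h hy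
    have hyx : dist y x = 1 := by rw [dist_comm]; exact hxy
    simp only [hcol, hx, hyA, if_true, if_false]
    by_cases hxK : x ∈ K <;> by_cases hyK : y ∈ K
    · simp only [hxK, hyK, if_true]
      split_ifs <;> decide
    · simp only [hxK, hyK, if_true, if_false]
      by_cases hxD : x ∈ D'
      · have : y ∉ NA := by
          rintro ⟨z, hz, hyz⟩
          apply hyK
          exact KK_closed hxK hz.2.1 (fun h => hz.2.2 (h ▸ hxD)) hyx hyz
        simp only [hxD, this, if_true, if_false]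
        decide
      · have : y ∈ NA := ⟨x, ⟨hx, hxK, hxD⟩, hyx⟩
        simp only [hxD, this, if_true, if_false]
        decide
    · simp only [hxK, hyK, if_true, if_false]
      by_cases hyD : y ∈ D'
      · have : x ∉ NB := by
          rintro ⟨z, hz, hxz⟩
          apply hxK
          exact KK_closed hyK hz.2.1 (fun h => hz.2.2 (h ▸ hyD)) hxy hxz
        simp only [hyD, this, if_true, if_false]
        decide
      · have : x ∈ NB := ⟨y, ⟨hy, hyK, hyD⟩, hxy⟩
        simp only [hyD, this, if_true, if_false]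
        decide
    · simp only [hxK, hyK, if_false]
      split_ifs <;> decide
  -- density
  have dns : ∀ z ∈ P ε, ∀ r : ℝ, 0 < r → ∀ i : Fin 4, ∃ w ∈ P ε, dist w z < r ∧ col w = i := by
    intro z hz r hr i
    have hfind : ∀ S : Set ℂ, Dense S → ∀ U : Set ℂ, IsOpen U → z ∈ U →
        ∃ w ∈ U, w ∈ S ∧ dist w z < r := by
      intro S hS U hU hzU
      obtain ⟨w, hw, hwS⟩ := hS.inter_open_nonempty (U ∩ Metric.ball z r)
        (hU.inter Metric.isOpen_ball) ⟨z, hzU, Metric.mem_ball_self hr⟩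
      exact ⟨w, hw.1, hwS, hw.2⟩
    have hcN : ∀ S : Set ℂ, (S ∩ (K \ D')).Countable := fun S =>
      (hKc.mono sdiff_subset).mono inter_subset_right
    rcases hz with hz | hz
    · have hzA : z ∈ A := hz
      have hU : IsOpen (A ∩ Metric.ball z r) := Metric.isOpen_ball.inter Metric.isOpen_ball
      have hne : (A ∩ Metric.ball z r).Nonempty := ⟨z, hzA, Metric.mem_ball_self hr⟩
      fin_cases i
      · obtain ⟨w, hw, hwK, hwN⟩ := exists_avoid hU hne hKc (hcN B)
        refine ⟨w, Or.inl hw.1, hw.2, ?_⟩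
        have h3 : w ∉ NB := fun ⟨y, hy, hwy⟩ => hwN y hy hwy
        simp [hcol, hw.1, hwK, h3]
      · have hz1 : z + 1 ∈ B := by
          rw [hB, Metric.mem_ball, dist_eq_norm]
          have : z + 1 - 1 = z - 0 := by ring
          rw [this, ← dist_eq_norm]
          exact hzA
        obtain ⟨w, hw, hwK, y, hyB, hyD, hwy⟩ := exists_on (u := 1) hU
          ⟨hzA, Metric.mem_ball_self hr⟩ (Metric.isOpen_ball : IsOpen B) hz1 (by simp) hKc hD
        refine ⟨w, Or.inl hw.1, hw.2, ?_⟩
        have h3 : w ∈ NB := ⟨y, ⟨hyB, hDK y hyD, hdisj y hyD⟩, hwy⟩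
        simp [hcol, hw.1, hwK, h3]
      · obtain ⟨w, hwA, hwD, hwz⟩ := hfind D hD A Metric.isOpen_ball hzA
        refine ⟨w, Or.inl hwA, hwz, ?_⟩
        simp [hcol, hwA, hDK w hwD, hdisj w hwD]
      · obtain ⟨w, hwA, hwD, hwz⟩ := hfind D' hD' A Metric.isOpen_ball hzA
        refine ⟨w, Or.inl hwA, hwz, ?_⟩
        simp [hcol, hwA, hD'K w hwD, hwD]
    · have hzB : z ∈ B := hz
      have hU : IsOpen (B ∩ Metric.ball z r) := Metric.isOpen_ball.inter Metric.isOpen_ball
      have hne : (B ∩ Metric.ball z r).Nonempty := ⟨z, hzB, Metric.mem_ball_self hr⟩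
      have hnA : ∀ w ∈ B, w ∉ A := fun w hw h => hAB w h hw
      fin_cases i
      · obtain ⟨w, hwA, hwD, hwz⟩ := hfind D hD B Metric.isOpen_ball hzB
        refine ⟨w, Or.inr hwA, hwz, ?_⟩
        simp [hcol, hnA w hwA, hDK w hwD, hdisj w hwD]
      · obtain ⟨w, hwA, hwD, hwz⟩ := hfind D' hD' B Metric.isOpen_ball hzB
        refine ⟨w, Or.inr hwA, hwz, ?_⟩
        simp [hcol, hnA w hwA, hD'K w hwD, hwD]
      · obtain ⟨w, hw, hwK, hwN⟩ := exists_avoid hU hne hKc (hcN A)
        refine ⟨w, Or.inr hw.1, hw.2, ?_⟩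
        have h3 : w ∉ NA := fun ⟨y, hy, hwy⟩ => hwN y hy hwy
        simp [hcol, hnA w hw.1, hwK, h3]
      · have hz1 : z + (-1) ∈ A := by
          rw [hA, Metric.mem_ball, dist_eq_norm]
          have : z + (-1) - 0 = z - 1 := by ring
          rw [this, ← dist_eq_norm]
          exact hzB
        obtain ⟨w, hw, hwK, y, hyB, hyD, hwy⟩ := exists_on (u := -1) hU
          ⟨hzB, Metric.mem_ball_self hr⟩ (Metric.isOpen_ball : IsOpen A) hz1 (by simp) hKc hD
        refine ⟨w, Or.inr hw.1, hw.2, ?_⟩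
        have h3 : w ∈ NA := ⟨y, ⟨hyB, hDK y hyD, hdisj y hyD⟩, hwy⟩
        simp [hcol, hnA w hw.1, hwK, h3]
  refine ⟨fun x => col x.1, ⟨?_, ?_⟩, ?_⟩
  · rintro ⟨x, hx⟩ ⟨y, hy⟩ hxy
    have hxy' : dist x y = 1 := hxy
    rcases hx with hx | hx <;> rcases hy with hy | hy
    · exact absurd hxy' (hAA x hx y hy)
    · exact key x hx y hy hxy'
    · exact (key y hy x hx (by rw [dist_comm]; exact hxy')).symm
    · exact absurd hxy' (hBB x hx y hy)
  · intro i
    rw [Metric.dense_iff]
    rintro ⟨z, hz⟩ r hr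
    obtain ⟨w, hw, hwz, hwi⟩ := dns z hz r hr i
    exact ⟨⟨w, hw⟩, hwz, hwi⟩
  · intro i
    have h3 : cls (fun x : P ε => col x.1) i = P ε ∩ col ⁻¹' {i} := by
      ext x
      constructor
      · rintro ⟨⟨y, hy⟩, hyi, rfl⟩
        exact ⟨hy, hyi⟩
      · rintro ⟨hx, hxi⟩
        exact ⟨⟨x, hx⟩, hxi, rfl⟩
    rw [h3]
    exact (Metric.isOpen_ball.union Metric.isOpen_ball).measurableSet.inter
      (mcol (measurableSet_singleton i))

end Pool.Agent.Helper78.DD
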