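import Pool.Agent.Helper78.DD.Main

/-! # The measure and the category version -/

open MeasureTheory Topology Set Filter

namespace Pool.Agent.Helper78.DD

theorem core_meas {ε : ℝ} {X Y Z : Set ℂ} (T : Tri ε X Y Z) {A : Set ℂ} (hA : MeasurableSet A)
    (hAX : A ⊆ X) (hAB : A ⊆ Metric.ball 0 ε) : volume A = 0 := by
  by_contra hne
  obtain ⟨x, hxA, hx⟩ := exists_mem_forall_mem_nhdsWithin_pos_measure hne
  obtain ⟨q, hq, ρ, hρ, hgood⟩ := main_pick (hAB hxA)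
  obtain ⟨p, hp, hpq⟩ := T.dY q (Or.inl hq) ρ hρ
  obtain ⟨p', hp', hpq'⟩ := T.dZ q (Or.inl hq) ρ hρ
  have hB : volume (A ∩ Metric.ball x ρ) ≠ 0 :=
    (hx _ (inter_mem self_mem_nhdsWithin
      (mem_nhdsWithin_of_mem_nhds (Metric.ball_mem_nhds x hρ)))).ne'
  obtain ⟨x0, hx0, h1, h2⟩ := Measure.exists_mem_of_measure_ne_zero_of_ae hB
    (ae_restrict_of_ae ((meas_phi p hA).and (meas_phi p' hA)))
  have g := hgood x0 p hx0.2 hpq
  have g' := hgood x0 p' hx0.2 hpq'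
  obtain ⟨c, C, r, hc, hC, hr, hkey⟩ := main_key T hp hp' g g'
  set η : ℝ := c / (2 * C) with hη
  have hη0 : 0 < η := by positivity
  obtain ⟨r1, hr1, hm1⟩ := h1 hx0.1 g.v η hη0
  obtain ⟨r2, hr2, hm2⟩ := h2 hx0.1 g'.v η hη0
  obtain ⟨s, hs0, hs⟩ : ∃ s : ℝ, 0 < s ∧ s < min r (min (r1 / C) (r2 / C)) :=
    exists_between (by positivity)
  have s1 : s < r := hs.trans_le (min_le_left _ _)
  have s2 : C * s < r1 := by
    have := hs.trans_le ((min_le_right _ _).trans (min_le_left _ _))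
    rwa [lt_div_iff₀ hC, mul_comm] at this
  have s3 : C * s < r2 := by
    have := hs.trans_le ((min_le_right _ _).trans (min_le_right _ _))
    rwa [lt_div_iff₀ hC, mul_comm] at this
  obtain ⟨h, h', -, -, hlip, hbd, hor⟩ := hkey s hs0 s1
  have hCs : 0 < C * s := by positivity
  -- the two exceptional sets
  have key : ∀ (p : ℂ) (h : ℝ → ℝ) (φ0 r0 : ℝ), C * s < r0 →
      (∀ r : ℝ, 0 < r → r < r0 → ∀ Φ : Set ℝ, (∀ φ ∈ Φ, ∀ τ : ℝ, p + Th (φ, τ) ∉ A) →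
        volume (Φ ∩ Icc (φ0 - r) (φ0 + r)) ≤ ENNReal.ofReal (η * r)) →
      (∀ σ ∈ Ioo (-s) s, ∀ σ' ∈ Ioo (-s) s, c * |σ - σ'| ≤ |h σ - h σ'|) →
      (∀ σ ∈ Ioo (-s) s, |h σ - φ0| ≤ C * s) →
      volume {σ | σ ∈ Ioo (-s) s ∧ p + e (h σ) ∈ X} ≤ ENNReal.ofReal (s / 2) := by
    intro p h φ0 r0 hr0 hm hl hb
    set S : Set ℝ := {σ | σ ∈ Ioo (-s) s ∧ p + e (h σ) ∈ X} with hS
    have h1 : volume S ≤ ENNReal.ofReal (1 / c) * volume (h '' S) :=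
      meas_pre hc fun σ hσ σ' hσ' => hl σ hσ.1 σ' hσ'.1
    have h2 : volume (h '' S) ≤ ENNReal.ofReal (η * (C * s)) := by
      refine (measure_mono ?_).trans (hm (C * s) hCs hr0 {φ | p + e φ ∈ X} ?_)
      · rintro _ ⟨σ, hσ, rfl⟩
        have h3 := abs_le.1 (hb σ hσ.1)
        exact ⟨hσ.2, by constructor <;> linarith [h3.1, h3.2]⟩
      · intro φ hφ τ hτ
        refine T.pX _ hφ _ (hAX hτ) ?_
        rw [dist_eq_norm]
        have h4 : p + e φ - (p + Th (φ, τ)) = e τ := by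
          unfold Th
          ring
        rw [h4, norm_e]
    calc volume S ≤ ENNReal.ofReal (1 / c) * volume (h '' S) := h1
      _ ≤ ENNReal.ofReal (1 / c) * ENNReal.ofReal (η * (C * s)) := by gcongr
      _ = ENNReal.ofReal (s / 2) := by
          rw [← ENNReal.ofReal_mul (by positivity)]
          congr 1
          rw [hη]
          field_simp
  have k1 := key p h _ r1 s2 hm1 (fun σ hσ σ' hσ' => (hlip σ hσ σ' hσ').1) fun σ hσ => (hbd σ hσ).1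
  have k2 := key p' h' _ r2 s3 hm2 (fun σ hσ σ' hσ' => (hlip σ hσ σ' hσ').2) fun σ hσ => (hbd σ hσ).2
  have hcov : Ioo (-s) s ⊆ {σ | σ ∈ Ioo (-s) s ∧ p + e (h σ) ∈ X} ∪
      {σ | σ ∈ Ioo (-s) s ∧ p' + e (h' σ) ∈ X} := by
    intro σ hσ
    rcases hor σ hσ with h3 | h3
    · exact Or.inl ⟨hσ, h3⟩
    · exact Or.inr ⟨hσ, h3⟩
  have h5 : volume (Ioo (-s) s) ≤ ENNReal.ofReal s := by
    calc volume (Ioo (-s) s) ≤ _ := measure_mono hcov
      _ ≤ _ := measure_union_le _ _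
      _ ≤ ENNReal.ofReal (s / 2) + ENNReal.ofReal (s / 2) := add_le_add k1 k2
      _ = ENNReal.ofReal s := by
          rw [← ENNReal.ofReal_add (by positivity) (by positivity), add_halves]
  rw [Real.volume_Ioo, ENNReal.ofReal_le_ofReal_iff hs0.le] at h5
  linarith

theorem core_cat {ε : ℝ} {X Y Z : Set ℂ} (T : Tri ε X Y Z) {O M : Set ℂ} (hO : IsOpen O)
    (hM : IsMeagre M) (hOM : ∀ z ∈ O, z ∉ M → z ∈ X) (hOB : O ⊆ Metric.ball 0 ε) : O = ∅ := by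
  by_contra hne
  obtain ⟨x, hx⟩ := nonempty_iff_ne_empty.2 hne
  obtain ⟨q, hq, ρ, hρ, hgood⟩ := main_pick (hOB hx)
  obtain ⟨p, hp, hpq⟩ := T.dY q (Or.inl hq) ρ hρ
  obtain ⟨p', hp', hpq'⟩ := T.dZ q (Or.inl hq) ρ hρ
  have g := hgood x p (by simpa using hρ) hpq
  have g' := hgood x p' (by simpa using hρ) hpq'
  obtain ⟨c, C, r, hc, hC, hr, hkey⟩ := main_key T hp hp' g g'
  obtain ⟨r1, hr1, hm1⟩ := cat_phi hO hM hx g.v
  obtain ⟨r2, hr2, hm2⟩ := cat_phi hO hM hx g'.v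
  obtain ⟨s, hs0, hs⟩ : ∃ s : ℝ, 0 < s ∧ s < min r (min (r1 / C) (r2 / C)) :=
    exists_between (by positivity)
  have s1 : s < r := hs.trans_le (min_le_left _ _)
  have s2 : C * s < r1 := by
    have := hs.trans_le ((min_le_right _ _).trans (min_le_left _ _))
    rwa [lt_div_iff₀ hC, mul_comm] at this
  have s3 : C * s < r2 := by
    have := hs.trans_le ((min_le_right _ _).trans (min_le_right _ _))
    rwa [lt_div_iff₀ hC, mul_comm] at this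
  obtain ⟨h, h', hct, hct', hlip, hbd, hor⟩ := hkey s hs0 s1
  have key : ∀ (p : ℂ) (h : ℝ → ℝ) (φ0 r0 : ℝ), C * s < r0 →
      (∀ Φ : Set ℝ, (∀ φ ∈ Φ, ∀ τ : ℝ, p + Th (φ, τ) ∈ O → p + Th (φ, τ) ∈ M) →
        IsMeagre (Φ ∩ Ioo (φ0 - r0) (φ0 + r0))) → ContinuousOn h (Ioo (-s) s) →
      (∀ σ ∈ Ioo (-s) s, ∀ σ' ∈ Ioo (-s) s, c * |σ - σ'| ≤ |h σ - h σ'|) →
      (∀ σ ∈ Ioo (-s) s, |h σ - φ0| ≤ C * s) →
      IsMeagre {σ | σ ∈ Ioo (-s) s ∧ p + e (h σ) ∈ X} := by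
    intro p h φ0 r0 hr0 hm hct hl hb
    have hinj : InjOn h (Ioo (-s) s) := by
      intro σ hσ σ' hσ' heq
      have := hl σ hσ σ' hσ'
      rw [heq, sub_self, abs_zero] at this
      have h1 : |σ - σ'| ≤ 0 := by
        by_contra h2
        push Not at h2
        nlinarith
      exact sub_eq_zero.1 (abs_nonpos_iff.1 h1)
    have h1 := cat_pre (by linarith : -s < s) hct hinj (hm {φ | p + e φ ∈ X} (by
      intro φ hφ τ hτ
      by_contra hτM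
      refine T.pX _ hφ _ (hOM _ hτ hτM) ?_
      rw [dist_eq_norm]
      have h4 : p + e φ - (p + Th (φ, τ)) = e τ := by
        unfold Th
        ring
      rw [h4, norm_e]))
    refine h1.mono ?_
    intro σ hσ
    have h3 := abs_le.1 (hb σ hσ.1)
    exact ⟨hσ.1, hσ.2, by constructor <;> linarith [h3.1, h3.2]⟩
  have k1 := key p h _ r1 s2 hm1 hct (fun σ hσ σ' hσ' => (hlip σ hσ σ' hσ').1)
    fun σ hσ => (hbd σ hσ).1
  have k2 := key p' h' _ r2 s3 hm2 hct' (fun σ hσ σ' hσ' => (hlip σ hσ σ' hσ').2)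
    fun σ hσ => (hbd σ hσ).2
  have hcov : Ioo (-s) s ⊆ {σ | σ ∈ Ioo (-s) s ∧ p + e (h σ) ∈ X} ∪
      {σ | σ ∈ Ioo (-s) s ∧ p' + e (h' σ) ∈ X} := by
    intro σ hσ
    rcases hor σ hσ with h3 | h3
    · exact Or.inl ⟨hσ, h3⟩
    · exact Or.inr ⟨hσ, h3⟩
  exact not_isMeagre_of_isOpen isOpen_Ioo (nonempty_Ioo.2 (by linarith)) ((k1.union k2).mono hcov)

end Pool.Agent.Helper78.DD
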