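import Mathlib

/-!
Everywhere dense colourings of two small discs at unit distance: definitions.
The Euclidean plane is `ℂ`, with its distance `‖z - w‖` and Lebesgue measure `volume`.
-/

open MeasureTheory Topology Set

namespace Pool.Agent.Helper78.DD

/-- The union of the two open discs of radius `ε` centred at `0` and at `1`. -/
def P (ε : ℝ) : Set ℂ := Metric.ball 0 ε ∪ Metric.ball 1 ε

/-- `c` is a proper everywhere dense colouring of `M` with the colours `Fin k`: points at distance
exactly `1` have different colours and every colour class is dense in `M`. -/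
structure IsED {k : ℕ} (M : Set ℂ) (c : M → Fin k) : Prop where
  proper : ∀ x y : M, dist x y = 1 → c x ≠ c y
  dense : ∀ i, Dense (c ⁻¹' {i})

/-- The colour class `i` of `c`, as a subset of the plane. -/
def cls {k : ℕ} {M : Set ℂ} (c : M → Fin k) (i : Fin k) : Set ℂ := Subtype.val '' (c ⁻¹' {i})

/-- The everywhere dense chromatic number, for arbitrary colour classes. -/
noncomputable def chiEd (M : Set ℂ) : ℕ := sInf {k | ∃ c : M → Fin k, IsED M c}

/-- The least number of colours of a proper everywhere dense colouring of `M` whose colour classes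
are Borel sets. -/
noncomputable def chiBorel (M : Set ℂ) : ℕ :=
  sInf {k | ∃ c : M → Fin k, IsED M c ∧ ∀ i, MeasurableSet (cls c i)}

/-- The same for Lebesgue measurable colour classes. -/
noncomputable def chiLebesgue (M : Set ℂ) : ℕ :=
  sInf {k | ∃ c : M → Fin k, IsED M c ∧ ∀ i, NullMeasurableSet (cls c i) volume}

/-- The same for colour classes with the property of Baire. -/
noncomputable def chiBaire (M : Set ℂ) : ℕ :=
  sInf {k | ∃ c : M → Fin k, IsED M c ∧ ∀ i, BaireMeasurableSet (cls c i)}

/-! ### auxiliary notions for the proofs -/

/-- The unit vector of angle `t`. -/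
noncomputable def e (t : ℝ) : ℂ := Complex.exp (t * Complex.I)

/-- Difference of two unit vectors. -/
noncomputable def Th (z : ℝ × ℝ) : ℂ := e z.1 - e z.2

/-- Inverse of `Th` on the upper half of the disc of radius `2`. -/
noncomputable def Ps (v : ℂ) : ℝ × ℝ :=
  (Complex.arg (-Complex.I * v) + Real.arcsin (‖v‖ / 2),
    Complex.arg (-Complex.I * v) - Real.arcsin (‖v‖ / 2))

/-- The upper half of the disc of radius `2`. -/
def V : Set ℂ := {v | 0 < v.im ∧ ‖v‖ < 2}

end Pool.Agent.Helper78.DD
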