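import Pool.Agent.Helper78.DD.Core

/-! # The final statement -/

open MeasureTheory Topology Set Filter

namespace Pool.Agent.Helper78.DD

theorem final_mem_cls {k : ℕ} {M : Set ℂ} {c : M → Fin k} {i : Fin k} {z : ℂ} :
    z ∈ cls c i ↔ ∃ hz : z ∈ M, c ⟨z, hz⟩ = i := by
  unfold cls
  constructor
  · rintro ⟨w, hw, rfl⟩
    exact ⟨w.2, hw⟩
  · rintro ⟨hz, h⟩
    exact ⟨⟨z, hz⟩, h, rfl⟩

theorem final_cls_sub {k : ℕ} {M : Set ℂ} {c : M → Fin k} {i : Fin k} : cls c i ⊆ M := by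
  intro z hz
  exact (final_mem_cls.1 hz).1

theorem final_proper {k : ℕ} {M : Set ℂ} {c : M → Fin k} (h : IsED M c) (i : Fin k) :
    ∀ x ∈ cls c i, ∀ y ∈ cls c i, dist x y ≠ 1 := by
  intro x hx y hy hxy
  obtain ⟨hx1, hx2⟩ := final_mem_cls.1 hx
  obtain ⟨hy1, hy2⟩ := final_mem_cls.1 hy
  exact h.proper ⟨x, hx1⟩ ⟨y, hy1⟩ hxy (hx2.trans hy2.symm)

theorem final_dense {k : ℕ} {M : Set ℂ} {c : M → Fin k} (h : IsED M c) (i : Fin k) :
    ∀ z ∈ M, ∀ r : ℝ, 0 < r → ∃ w ∈ cls c i, dist w z < r := by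
  intro z hz r hr
  obtain ⟨w, hw, hwr⟩ := (h.dense i).exists_dist_lt ⟨z, hz⟩ hr
  refine ⟨w, final_mem_cls.2 ⟨w.2, hw⟩, ?_⟩
  rw [dist_comm]
  exact hwr

theorem final_tri {ε : ℝ} {c : P ε → Fin 3} (h : IsED (P ε) c) (i : Fin 3) :
    Tri ε (cls c i) (cls c (i + 1)) (cls c (i + 2)) where
  cover := by
    intro z hz
    have h3 : ∀ i j : Fin 3, j = i ∨ j = i + 1 ∨ j = i + 2 := by decide
    rcases h3 i (c ⟨z, hz⟩) with h1 | h1 | h1
    · exact Or.inl (final_mem_cls.2 ⟨hz, h1⟩)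
    · exact Or.inr (Or.inl (final_mem_cls.2 ⟨hz, h1⟩))
    · exact Or.inr (Or.inr (final_mem_cls.2 ⟨hz, h1⟩))
  pX := final_proper h _
  pY := final_proper h _
  pZ := final_proper h _
  dX := final_dense h _
  dY := final_dense h _
  dZ := final_dense h _

/-- the reflection -/
theorem final_refl_image (A : Set ℂ) : (fun z : ℂ => 1 - z) ⁻¹' A = (fun z : ℂ => 1 - z) '' A := by
  ext z
  constructor
  · intro hz
    exact ⟨1 - z, hz, by ring⟩
  · rintro ⟨w, hw, rfl⟩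
    simpa using hw

theorem final_meas {ε : ℝ} {X Y Z : Set ℂ} (T : Tri ε X Y Z) {A : Set ℂ} (hA : MeasurableSet A)
    (hAX : A ⊆ X) (hAP : A ⊆ P ε) : volume A = 0 := by
  have h0 : volume (A ∩ Metric.ball 0 ε) = 0 :=
    core_meas T (hA.inter Metric.isOpen_ball.measurableSet) (inter_subset_left.trans hAX)
      inter_subset_right
  have h1 : volume (A ∩ Metric.ball 1 ε) = 0 := by
    have hmp : MeasurePreserving (fun z : ℂ => 1 - z) volume volume :=
      Measure.measurePreserving_sub_left volume 1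
    have hm : MeasurableSet (A ∩ Metric.ball 1 ε) := hA.inter Metric.isOpen_ball.measurableSet
    rw [← hmp.measure_preimage hm.nullMeasurableSet]
    refine core_meas T.mirror (hmp.measurable hm) (fun z hz => hAX hz.1) ?_
    intro z hz
    have h2 : (1 : ℂ) - z ∈ Metric.ball 1 ε := hz.2
    rw [Metric.mem_ball, dist_eq_norm, sub_sub_cancel_left, norm_neg] at h2
    rw [Metric.mem_ball, dist_eq_norm, sub_zero]
    exact h2
  have h2 : A ⊆ (A ∩ Metric.ball 0 ε) ∪ (A ∩ Metric.ball 1 ε) := by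
    intro z hz
    rcases hAP hz with h | h
    · exact Or.inl ⟨hz, h⟩
    · exact Or.inr ⟨hz, h⟩
  exact measure_mono_null h2 (measure_union_null h0 h1)

theorem final_meagre_refl {M : Set ℂ} (hM : IsMeagre M) :
    IsMeagre ((fun z : ℂ => 1 - z) ⁻¹' M) := by
  have h1 : IsOpenMap (fun z : ℂ => 1 - z) := (Homeomorph.subLeft (1 : ℂ)).isOpenMap
  have h2 : Continuous (fun z : ℂ => 1 - z) := (Homeomorph.subLeft (1 : ℂ)).continuous
  exact hM.preimage_of_isOpenMap h2 h1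

theorem final_cat {ε : ℝ} {X Y Z : Set ℂ} (T : Tri ε X Y Z) {A : Set ℂ} (hA : BaireMeasurableSet A)
    (hAX : A ⊆ X) (hAP : A ⊆ P ε) : IsMeagre A := by
  obtain ⟨U, hU, hUA⟩ := hA.residualEq_isOpen
  have hM : IsMeagre {z | ¬ (z ∈ A ↔ z ∈ U)} := by
    have h1 : ∀ᶠ z in residual ℂ, (z ∈ A ↔ z ∈ U) := by
      filter_upwards [hUA] with z hz
      exact eq_iff_iff.1 hz
    unfold IsMeagre
    filter_upwards [h1] with z hz
    simp only [mem_compl_iff, mem_setOf_eq, not_not]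
    exact hz
  set M : Set ℂ := {z | ¬ (z ∈ A ↔ z ∈ U)} with hMdef
  have hUM : ∀ z ∈ U, z ∉ M → z ∈ A := by
    intro z hz hzM
    simp only [hMdef, mem_setOf_eq, not_not] at hzM
    exact hzM.2 hz
  have h0 : U ∩ Metric.ball 0 ε = ∅ :=
    core_cat T (hU.inter Metric.isOpen_ball) hM (fun z hz hzM => hAX (hUM z hz.1 hzM))
      inter_subset_right
  have h1 : (fun z : ℂ => 1 - z) ⁻¹' (U ∩ Metric.ball 1 ε) = ∅ := by
    have hc : Continuous (fun z : ℂ => 1 - z) := by fun_prop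
    refine core_cat T.mirror ((hU.inter Metric.isOpen_ball).preimage hc) (final_meagre_refl hM)
      (fun z hz hzM => hAX (hUM _ hz.1 hzM)) ?_
    intro z hz
    have h2 : (1 : ℂ) - z ∈ Metric.ball 1 ε := hz.2
    rw [Metric.mem_ball, dist_eq_norm, sub_sub_cancel_left, norm_neg] at h2
    rw [Metric.mem_ball, dist_eq_norm, sub_zero]
    exact h2
  have h1' : U ∩ Metric.ball 1 ε = ∅ := by
    by_contra hne
    obtain ⟨z, hz⟩ := nonempty_iff_ne_empty.2 hne
    have : 1 - z ∈ (fun z : ℂ => 1 - z) ⁻¹' (U ∩ Metric.ball 1 ε) := by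
      simpa using hz
    rw [h1] at this
    exact this
  refine hM.mono fun z hz => ?_
  simp only [hMdef, mem_setOf_eq]
  intro h
  have hzU := h.1 hz
  rcases hAP hz with h2 | h2
  · have : z ∈ U ∩ Metric.ball 0 ε := ⟨hzU, h2⟩
    rw [h0] at this
    exact this
  · have : z ∈ U ∩ Metric.ball 1 ε := ⟨hzU, h2⟩
    rw [h1'] at this
    exact this

theorem final_wild {ε : ℝ} {c : P ε → Fin 3} (h : IsED (P ε) c) (i : Fin 3) : Wild (cls c i) := by
  intro A hA
  refine ⟨fun hm => ?_, fun hb => final_cat (final_tri h i) hb hA (hA.trans final_cls_sub)⟩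
  obtain ⟨B, hBA, hB, hae⟩ := hm.exists_measurable_subset_ae_eq
  rw [← measure_congr hae]
  exact final_meas (final_tri h i) hB (hBA.trans hA) ((hBA.trans hA).trans final_cls_sub)

/-- at most two colours are impossible -/
theorem final_two {ε : ℝ} (h0 : 0 < ε) {k : ℕ} (hk : k < 3) {c : P ε → Fin k} (h : IsED (P ε) c) :
    False := by
  have hz : (0 : ℂ) ∈ P ε := Or.inl (by simpa using h0)
  have hz1 : (1 : ℂ) ∈ P ε := Or.inr (by simpa using h0)
  interval_cases k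
  · exact (c ⟨0, hz⟩).elim0
  · exact h.proper ⟨0, hz⟩ ⟨1, hz1⟩ (by rw [Subtype.dist_eq]; simp [dist_eq_norm])
      (Subsingleton.elim _ _)
  · obtain ⟨q, hq, ρ, hρ, hgood⟩ := main_pick (ε := ε) (x := 0) (by simpa using h0)
    obtain ⟨x, hx, hxr⟩ := final_dense h 0 0 hz ρ hρ
    obtain ⟨p, hp, hpr⟩ := final_dense h 1 q (Or.inl hq) ρ hρ
    have g := hgood x p hxr hpr
    have hy : p + e (Ps (x - p)).1 ∈ P ε := Or.inr g.y
    have h2 : ∀ j : Fin 2, j = 0 ∨ j = 1 := by decide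
    rcases h2 (c ⟨_, hy⟩) with h3 | h3
    · exact final_proper h 0 _ (final_mem_cls.2 ⟨hy, h3⟩) x hx (main_dist2 g.v)
    · exact final_proper h 1 _ (final_mem_cls.2 ⟨hy, h3⟩) p hp (main_dist1 _ _)

/-- a colouring with measurable classes has a class which is not wild -/
theorem final_not_wild {ε : ℝ} (h0 : 0 < ε) {k : ℕ} {c : P ε → Fin k}
    (h : ∀ i, MeasurableSet (cls c i)) : ∃ i, ¬ Wild (cls c i) := by
  by_contra hcon
  push Not at hcon
  have h1 : ∀ i, volume (cls c i) = 0 := fun i =>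
    (hcon i _ subset_rfl).1 (h i).nullMeasurableSet
  have h2 : volume (Metric.ball (0 : ℂ) ε) = 0 := by
    refine measure_mono_null ?_ (measure_iUnion_null h1)
    intro z hz
    have hzP : z ∈ P ε := Or.inl hz
    exact mem_iUnion.2 ⟨c ⟨z, hzP⟩, final_mem_cls.2 ⟨hzP, rfl⟩⟩
  exact (Metric.measure_ball_pos volume (0 : ℂ) h0).ne' h2

theorem final_main {ε : ℝ} (h0 : 0 < ε) (h1 : ε < 1 / 2) :
    IsLeast {k : ℕ | ∃ c : P ε → Fin k, IsED (P ε) c ∧ ∃ i, ¬ Wild (cls c i)} 4 ∧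
      IsLeast {k : ℕ | ∃ c : P ε → Fin k, IsED (P ε) c ∧ ∀ i, MeasurableSet (cls c i)} 4 := by
  obtain ⟨c, hc, hm⟩ := exists_four ε h0 h1
  have hlow : ∀ k : ℕ, (∃ c : P ε → Fin k, IsED (P ε) c ∧ ∃ i, ¬ Wild (cls c i)) → 4 ≤ k := by
    rintro k ⟨c, hc, i, hi⟩
    by_contra hk
    push Not at hk
    rcases Nat.lt_or_ge k 3 with h3 | h3
    · exact final_two h0 h3 hc
    · obtain rfl : k = 3 := by omega
      exact hi (final_wild hc i)
  refine ⟨⟨⟨c, hc, final_not_wild h0 hm⟩, fun k hk => hlow k hk⟩, ⟨c, hc, hm⟩, ?_⟩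
  rintro k ⟨c, hc, hm⟩
  exact hlow k ⟨c, hc, final_not_wild h0 hm⟩

end Pool.Agent.Helper78.DD
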