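import Pool.Agent.Helper78.DD.Defs

/-! # GEO: unit circles through a point as a coordinate system -/

open MeasureTheory Topology Set

namespace Pool.Agent.Helper78.DD

theorem norm_e (t : ℝ) : ‖e t‖ = 1 := Complex.norm_exp_ofReal_mul_I t

theorem geo_contDiff_e : ContDiff ℝ 1 e := by
  unfold e
  exact (Complex.contDiff_exp (𝕜 := ℝ)).comp
    ((Complex.ofRealCLM.contDiff).mul contDiff_const)

theorem continuous_e : Continuous e := geo_contDiff_e.continuous

theorem geo_hasDerivAt_e (t : ℝ) : HasDerivAt e (e t * Complex.I) t := by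
  unfold e
  have h1 : HasDerivAt (fun t : ℝ => ((t : ℂ) * Complex.I)) (1 * Complex.I) t :=
    (HasDerivAt.ofReal_comp (hasDerivAt_id t)).mul_const _
  have := h1.cexp
  simpa using this

theorem geo_e_add (a b : ℝ) : e (a + b) = e a * e b := by
  unfold e
  rw [← Complex.exp_add]
  congr 1
  push_cast
  ring

theorem geo_e_eq (t : ℝ) : e t = (Real.cos t : ℂ) + (Real.sin t : ℂ) * Complex.I := by
  unfold e
  rw [Complex.exp_mul_I]
  push_cast
  rfl

theorem geo_Th_eq (z : ℝ × ℝ) :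
    Th z = ((2 * Real.sin ((z.1 - z.2) / 2) : ℝ) : ℂ) * (Complex.I * e ((z.1 + z.2) / 2)) := by
  unfold Th
  have h1 : e z.1 = e ((z.1 + z.2) / 2) * e ((z.1 - z.2) / 2) := by
    rw [← geo_e_add]; congr 1; ring
  have h2 : e z.2 = e ((z.1 + z.2) / 2) * e (-((z.1 - z.2) / 2)) := by
    rw [← geo_e_add]; congr 1; ring
  rw [h1, h2, geo_e_eq ((z.1 - z.2) / 2), geo_e_eq (-((z.1 - z.2) / 2)), Real.cos_neg, Real.sin_neg]
  push_cast
  ring

theorem isOpen_V : IsOpen V := by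
  unfold V
  exact (isOpen_lt continuous_const Complex.continuous_im).inter
    (isOpen_lt continuous_norm continuous_const)

private theorem geo_neg_I_mul (z : ℝ × ℝ) : -Complex.I * Th z =
    ((2 * Real.sin ((z.1 - z.2) / 2) : ℝ) : ℂ) * (Complex.cos ((z.1 + z.2) / 2 : ℝ) +
      Complex.sin ((z.1 + z.2) / 2 : ℝ) * Complex.I) := by
  rw [geo_Th_eq, geo_e_eq]
  have : Complex.I * Complex.I = -1 := Complex.I_mul_I
  push_cast
  linear_combination (-(2 * Complex.sin ((z.1 - z.2) / 2) * (Complex.cos ((z.1 + z.2) / 2) +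
      Complex.sin ((z.1 + z.2) / 2) * Complex.I))) * this

private theorem geo_sin_pos {z : ℝ × ℝ} (h1 : z.2 < z.1) (h2 : z.1 - z.2 < Real.pi) :
    0 < Real.sin ((z.1 - z.2) / 2) :=
  Real.sin_pos_of_pos_of_lt_pi (by linarith) (by linarith [Real.pi_pos])

private theorem geo_norm_Th {z : ℝ × ℝ} (h1 : z.2 < z.1) (h2 : z.1 - z.2 < Real.pi) :
    ‖Th z‖ = 2 * Real.sin ((z.1 - z.2) / 2) := by
  rw [geo_Th_eq, norm_mul, norm_mul, norm_e, Complex.norm_I, Complex.norm_real, Real.norm_eq_abs,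
    abs_of_pos (by have := geo_sin_pos h1 h2; positivity)]
  ring

theorem Th_mem_V {z : ℝ × ℝ} (h1 : z.2 < z.1) (h2 : z.1 - z.2 < Real.pi)
    (h3 : |z.1 + z.2| < Real.pi) : Th z ∈ V := by
  have hs := geo_sin_pos h1 h2
  obtain ⟨h3a, h3b⟩ := abs_lt.1 h3
  constructor
  · rw [geo_Th_eq, geo_e_eq]
    have hc : 0 < Real.cos ((z.1 + z.2) / 2) :=
      Real.cos_pos_of_mem_Ioo ⟨by linarith, by linarith⟩
    have : (((2 * Real.sin ((z.1 - z.2) / 2) : ℝ) : ℂ) * (Complex.I *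
        ((Real.cos ((z.1 + z.2) / 2) : ℂ) + (Real.sin ((z.1 + z.2) / 2) : ℂ) * Complex.I))).im =
        2 * Real.sin ((z.1 - z.2) / 2) * Real.cos ((z.1 + z.2) / 2) := by
      rw [Complex.im_ofReal_mul, Complex.I_mul_im, Complex.add_re, Complex.ofReal_re,
        Complex.re_ofReal_mul, Complex.I_re, mul_zero, add_zero]
    rw [this]
    positivity
  · rw [geo_norm_Th h1 h2]
    have h4 : Real.sin ((z.1 - z.2) / 2) < 1 := by
      rw [← Real.sin_pi_div_two]
      exact Real.sin_lt_sin_of_lt_of_le_pi_div_two (by linarith) le_rfl (by linarith)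
    linarith

theorem Ps_Th {z : ℝ × ℝ} (h1 : z.2 < z.1) (h2 : z.1 - z.2 < Real.pi)
    (h3 : |z.1 + z.2| < Real.pi) : Ps (Th z) = z := by
  have hs := geo_sin_pos h1 h2
  obtain ⟨h3a, h3b⟩ := abs_lt.1 h3
  have harg : Complex.arg (-Complex.I * Th z) = (z.1 + z.2) / 2 := by
    rw [geo_neg_I_mul]
    exact Complex.arg_mul_cos_add_sin_mul_I (by positivity) ⟨by linarith, by linarith⟩
  have hasin : Real.arcsin (‖Th z‖ / 2) = (z.1 - z.2) / 2 := by
    rw [geo_norm_Th h1 h2, mul_div_cancel_left₀ _ (two_ne_zero)]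
    exact Real.arcsin_sin (by linarith) (by linarith)
  unfold Ps
  rw [harg, hasin]
  ext
  · simp only; ring
  · simp only; ring

private theorem geo_arg {v : ℂ} (hv : v ∈ V) : |Complex.arg (-Complex.I * v)| < Real.pi / 2 := by
  rw [Complex.abs_arg_lt_pi_div_two_iff]
  left
  have : (-Complex.I * v).re = v.im := by simp
  rw [this]
  exact hv.1

private theorem geo_ne {v : ℂ} (hv : v ∈ V) : v ≠ 0 := by
  rintro rfl
  exact lt_irrefl _ hv.1

private theorem geo_asin {v : ℂ} (hv : v ∈ V) :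
    0 < Real.arcsin (‖v‖ / 2) ∧ Real.arcsin (‖v‖ / 2) < Real.pi / 2 := by
  have h1 : 0 < ‖v‖ := norm_pos_iff.2 (geo_ne hv)
  refine ⟨Real.arcsin_pos.2 (by linarith), Real.arcsin_lt_pi_div_two.2 ?_⟩
  have := hv.2
  linarith

theorem Ps_bounds {v : ℂ} (hv : v ∈ V) : (Ps v).2 < (Ps v).1 ∧ (Ps v).1 - (Ps v).2 < Real.pi ∧
    |(Ps v).1 + (Ps v).2| < Real.pi := by
  obtain ⟨h1, h2⟩ := geo_asin hv
  obtain ⟨h3, h4⟩ := abs_lt.1 (geo_arg hv)
  unfold Ps
  simp only
  refine ⟨by linarith, by linarith, abs_lt.2 ⟨by linarith, by linarith⟩⟩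

theorem Th_Ps {v : ℂ} (hv : v ∈ V) : Th (Ps v) = v := by
  have h1 : 0 < ‖v‖ := norm_pos_iff.2 (geo_ne hv)
  rw [geo_Th_eq]
  have ha : ((Ps v).1 - (Ps v).2) / 2 = Real.arcsin (‖v‖ / 2) := by unfold Ps; simp only; ring
  have hb : ((Ps v).1 + (Ps v).2) / 2 = Complex.arg (-Complex.I * v) := by unfold Ps; simp only; ring
  rw [ha, hb, Real.sin_arcsin (by linarith) (by have := hv.2; linarith)]
  have h2 := Complex.norm_mul_exp_arg_mul_I (-Complex.I * v)
  rw [norm_mul, norm_neg, Complex.norm_I, one_mul] at h2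
  have h3 : ((2 * (‖v‖ / 2) : ℝ) : ℂ) = (‖v‖ : ℂ) := by push_cast; ring
  rw [h3]
  unfold e
  calc (‖v‖ : ℂ) * (Complex.I * Complex.exp ((Complex.arg (-Complex.I * v) : ℝ) * Complex.I))
      = Complex.I * ((‖v‖ : ℂ) * Complex.exp ((Complex.arg (-Complex.I * v) : ℝ) * Complex.I)) := by
        ring
    _ = Complex.I * (-Complex.I * v) := by rw [h2]
    _ = v := by
        rw [← mul_assoc, mul_neg, Complex.I_mul_I]; ring

theorem contDiff_Th : ContDiff ℝ 1 Th := by
  unfold Th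
  exact (geo_contDiff_e.comp contDiff_fst).sub (geo_contDiff_e.comp contDiff_snd)

theorem contDiffAt_Ps {v : ℂ} (hv : v ∈ V) : ContDiffAt ℝ 1 Ps v := by
  have hslit : -Complex.I * v ∈ Complex.slitPlane := by
    left
    have : (-Complex.I * v).re = v.im := by simp
    rw [this]
    exact hv.1
  have h1 : ContDiffAt ℝ 1 (fun v : ℂ => Complex.arg (-Complex.I * v)) v := by
    have h2 : ContDiffAt ℂ 1 (fun v : ℂ => Complex.log (-Complex.I * v)) v :=
      ContDiffAt.comp (g := Complex.log) v (Complex.contDiffAt_log hslit)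
        (contDiffAt_const.mul contDiffAt_id)
    have h3 : ContDiffAt ℝ 1 (fun v : ℂ => Complex.log (-Complex.I * v)) v := h2.restrict_scalars ℝ
    have h4 : (fun v : ℂ => Complex.arg (-Complex.I * v)) =
        fun v : ℂ => Complex.imCLM (Complex.log (-Complex.I * v)) := by
      funext v
      simp [Complex.log_im]
    rw [h4]
    exact Complex.imCLM.contDiff.contDiffAt.comp v h3
  have h5 : ContDiffAt ℝ 1 (fun v : ℂ => Real.arcsin (‖v‖ / 2)) v := by
    have h6 : ContDiffAt ℝ 1 (fun v : ℂ => ‖v‖ / 2) v :=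
      (contDiffAt_norm ℝ (geo_ne hv)).div_const _
    have h7 : ContDiffAt ℝ 1 Real.arcsin (‖v‖ / 2) := by
      have hn : 0 ≤ ‖v‖ := norm_nonneg v
      have := hv.2
      exact Real.contDiffAt_arcsin (by intro h; linarith) (by intro h; linarith)
    exact ContDiffAt.comp (g := Real.arcsin) (f := fun v : ℂ => ‖v‖ / 2) v h7 h6
  exact (h1.add h5).prodMk (h1.sub h5)

/-- The direction of the line through `p` and `l - e σ`. -/
noncomputable def H (p l : ℂ) (σ : ℝ) : ℝ := (Ps (l - e σ - p)).1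

private theorem geo_fderiv_Th (z w : ℝ × ℝ) :
    fderiv ℝ Th z w = w.1 • (e z.1 * Complex.I) - w.2 • (e z.2 * Complex.I) := by
  have h1 : HasFDerivAt (fun z : ℝ × ℝ => e z.1)
      ((ContinuousLinearMap.toSpanSingleton ℝ (e z.1 * Complex.I)).comp
        (ContinuousLinearMap.fst ℝ ℝ ℝ)) z :=
    (geo_hasDerivAt_e z.1).hasFDerivAt.comp z (ContinuousLinearMap.fst ℝ ℝ ℝ).hasFDerivAt
  have h2 : HasFDerivAt (fun z : ℝ × ℝ => e z.2)
      ((ContinuousLinearMap.toSpanSingleton ℝ (e z.2 * Complex.I)).comp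
        (ContinuousLinearMap.snd ℝ ℝ ℝ)) z :=
    (geo_hasDerivAt_e z.2).hasFDerivAt.comp z (ContinuousLinearMap.snd ℝ ℝ ℝ).hasFDerivAt
  have h3 : HasFDerivAt Th _ z := h1.sub h2
  rw [h3.fderiv]
  simp [ContinuousLinearMap.toSpanSingleton_apply]

theorem geo_H {p x : ℂ} {s : ℝ} (hx : x - p ∈ V) (hs : Real.sin (s - (Ps (x - p)).2) ≠ 0) :
    ∃ c C r : ℝ, 0 < c ∧ 0 < C ∧ 0 < r ∧ ∀ l : ℂ, dist l (x + e s) < r →
      ∀ σ σ' : ℝ, |σ - s| < r → |σ' - s| < r →
        l - e σ - p ∈ V ∧ c * |σ - σ'| ≤ |H p l σ - H p l σ'| ∧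
          |H p l σ - (Ps (x - p)).1| ≤ C * (|σ - s| + dist l (x + e s)) := by
  set G : ℂ × ℝ → ℂ := fun y => y.1 - e y.2 - p with hG
  set F : ℂ × ℝ → ℝ := fun y => (Ps (G y)).1 with hF
  set y0 : ℂ × ℝ := (x + e s, s) with hy0
  have hG0 : G y0 = x - p := by simp [hG, hy0]
  have hGc : ContDiff ℝ 1 G :=
    (contDiff_fst.sub (geo_contDiff_e.comp contDiff_snd)).sub contDiff_const
  have hPs : ContDiffAt ℝ 1 Ps (G y0) := by rw [hG0]; exact contDiffAt_Ps hx
  have hFc : ContDiffAt ℝ 1 F y0 := by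
    have h1 : ContDiffAt ℝ 1 (fun y => Ps (G y)) y0 := hPs.comp y0 hGc.contDiffAt
    exact contDiffAt_fst.comp y0 h1
  have hstrict : HasStrictFDerivAt F (fderiv ℝ F y0) y0 := hFc.hasStrictFDerivAt (by norm_num)
  set D := fderiv ℝ F y0 with hD
  -- the derivative in the direction of `σ` is not zero
  have hGd : HasFDerivAt G (fderiv ℝ G y0) y0 := (hGc.differentiable (by norm_num) y0).hasFDerivAt
  have hG1 : fderiv ℝ G y0 (0, 1) = -(e s * Complex.I) := by
    have h1 : HasFDerivAt (fun y : ℂ × ℝ => e y.2)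
        ((ContinuousLinearMap.toSpanSingleton ℝ (e s * Complex.I)).comp
          (ContinuousLinearMap.snd ℝ ℂ ℝ)) y0 := by
      have h10 : HasFDerivAt e (ContinuousLinearMap.toSpanSingleton ℝ (e s * Complex.I)) y0.2 :=
        (geo_hasDerivAt_e s).hasFDerivAt
      exact HasFDerivAt.comp (g := e) (f := fun y : ℂ × ℝ => y.2) y0 h10
        (ContinuousLinearMap.snd ℝ ℂ ℝ).hasFDerivAt
    have h2 : HasFDerivAt G _ y0 :=
      (((ContinuousLinearMap.fst ℝ ℂ ℝ).hasFDerivAt (x := y0)).sub h1).sub (hasFDerivAt_const p y0)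
    rw [h2.fderiv]
    simp [ContinuousLinearMap.toSpanSingleton_apply]
  have hPsd : HasFDerivAt Ps (fderiv ℝ Ps (x - p)) (G y0) := by
    have := (hPs.differentiableAt (by norm_num)).hasFDerivAt
    rwa [hG0] at this ⊢
  have hD1 : D (0, 1) = (fderiv ℝ Ps (x - p) (-(e s * Complex.I))).1 := by
    have h1 : HasFDerivAt F ((ContinuousLinearMap.fst ℝ ℝ ℝ).comp
        ((fderiv ℝ Ps (x - p)).comp (fderiv ℝ G y0))) y0 :=
      (ContinuousLinearMap.fst ℝ ℝ ℝ).hasFDerivAt.comp y0 (hPsd.comp y0 hGd)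
    rw [hD, h1.fderiv]
    simp only [ContinuousLinearMap.comp_apply, ContinuousLinearMap.coe_fst', hG1]
  have hne : D (0, 1) ≠ 0 := by
    intro h0
    rw [hD1] at h0
    set w := fderiv ℝ Ps (x - p) (-(e s * Complex.I)) with hw
    -- the chain rule for `Th ∘ Ps = id`
    have h1 : HasFDerivAt (fun v => Th (Ps v))
        ((fderiv ℝ Th (Ps (x - p))).comp (fderiv ℝ Ps (x - p))) (x - p) := by
      have h2 : HasFDerivAt Th (fderiv ℝ Th (Ps (x - p))) (Ps (x - p)) :=
        (contDiff_Th.differentiable (by norm_num) _).hasFDerivAt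
      have h3 : HasFDerivAt Ps (fderiv ℝ Ps (x - p)) (x - p) := by rwa [hG0] at hPsd
      exact h2.comp (x - p) h3
    have h4 : HasFDerivAt (fun v : ℂ => v) (ContinuousLinearMap.id ℝ ℂ) (x - p) := hasFDerivAt_id _
    have h5 : (fun v => Th (Ps v)) =ᶠ[𝓝 (x - p)] fun v => v := by
      filter_upwards [isOpen_V.mem_nhds hx] with v hv using Th_Ps hv
    have h6 := h1.unique (h4.congr_of_eventuallyEq h5)
    have h7 := DFunLike.congr_fun h6 (-(e s * Complex.I))
    simp only [ContinuousLinearMap.comp_apply, ContinuousLinearMap.id_apply] at h7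
    rw [← hw, geo_fderiv_Th, h0, zero_smul, zero_sub] at h7
    set t := (Ps (x - p)).2 with ht
    have h8 : w.2 • (e t * Complex.I) = e s * Complex.I := by
      have := congrArg Neg.neg h7
      simpa using this
    have h9 : ((w.2 : ℝ) : ℂ) * e t = e s := by
      have hI : Complex.I ≠ 0 := Complex.I_ne_zero
      apply mul_right_cancel₀ hI
      rw [Complex.real_smul] at h8
      rw [← h8]; ring
    have h10 : e (s - t) = ((w.2 : ℝ) : ℂ) := by
      have h11 : e t * e (s - t) = e s := by rw [← geo_e_add]; congr 1; ring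
      have h12 : e t ≠ 0 := by
        intro h; have := norm_e t; rw [h, norm_zero] at this; exact zero_ne_one this
      apply mul_left_cancel₀ h12
      rw [h11, ← h9]; ring
    have h13 := congrArg Complex.im h10
    rw [geo_e_eq, Complex.ofReal_im, Complex.add_im, Complex.ofReal_im, Complex.im_ofReal_mul,
      Complex.I_im, mul_one, zero_add] at h13
    exact hs h13
  set d := |D (0, 1)| with hd
  have hdpos : 0 < d := abs_pos.2 hne
  -- the estimates
  have hlo := hstrict.isLittleO.def (show (0 : ℝ) < d / 2 by positivity)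
  have hV : ∀ᶠ y in 𝓝 y0, G y ∈ V := by
    refine hGc.continuous.continuousAt.eventually_mem ?_
    rw [hG0]
    exact isOpen_V.mem_nhds hx
  obtain ⟨r1, hr1, hb1⟩ := Metric.eventually_nhds_iff_ball.1 hV
  obtain ⟨r2, hr2, hb2⟩ := Metric.eventually_nhds_iff_ball.1 hlo
  refine ⟨d / 2, ‖D‖ + d / 2, min r1 r2, by positivity, by positivity, lt_min hr1 hr2, ?_⟩
  intro l hl σ σ' hσ hσ'
  have hball : ∀ τ : ℝ, |τ - s| < min r1 r2 → ((l, τ) : ℂ × ℝ) ∈ Metric.ball y0 (min r1 r2) := by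
    intro τ hτ
    rw [Metric.mem_ball, Prod.dist_eq]
    exact max_lt hl (by rw [Real.dist_eq]; exact hτ)
  have hb1σ := Metric.ball_subset_ball (min_le_left _ _) (hball σ hσ)
  have hb2σ := Metric.ball_subset_ball (min_le_right _ _) (hball σ hσ)
  have hb2σ' := Metric.ball_subset_ball (min_le_right _ _) (hball σ' hσ')
  have hpair : ∀ y y' : ℂ × ℝ, y ∈ Metric.ball y0 r2 → y' ∈ Metric.ball y0 r2 →
      ‖F y - F y' - D (y - y')‖ ≤ d / 2 * ‖y - y'‖ := by
    intro y y' hy hy'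
    refine hb2 (y, y') ?_
    rw [Metric.mem_ball, Prod.dist_eq]
    exact max_lt hy hy'
  refine ⟨hb1 _ hb1σ, ?_, ?_⟩
  · have h1 := hpair _ _ hb2σ hb2σ'
    have h2 : ((l, σ) : ℂ × ℝ) - (l, σ') = (σ - σ') • ((0, 1) : ℂ × ℝ) := by
      ext <;> simp
    have h3 : ‖((0, 1) : ℂ × ℝ)‖ = 1 := by simp [Prod.norm_def]
    have h1' : |F (l, σ) - F (l, σ') - (σ - σ') * D (0, 1)| ≤ d / 2 * |σ - σ'| := by
      rw [h2, map_smul, norm_smul, h3, mul_one, smul_eq_mul, Real.norm_eq_abs,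
        Real.norm_eq_abs] at h1
      exact h1
    have h4 : |(σ - σ') * D (0, 1)| = |σ - σ'| * d := by rw [abs_mul]
    have h5 : |(σ - σ') * D (0, 1)| ≤ |F (l, σ) - F (l, σ')| +
        |F (l, σ) - F (l, σ') - (σ - σ') * D (0, 1)| := by
      have h5a := abs_sub_abs_le_abs_sub ((σ - σ') * D (0, 1)) (F (l, σ) - F (l, σ'))
      have h5b := abs_sub_comm ((σ - σ') * D (0, 1)) (F (l, σ) - F (l, σ'))
      linarith
    have h6 : H p l σ - H p l σ' = F (l, σ) - F (l, σ') := rfl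
    rw [h6]
    rw [h4] at h5
    linarith
  · have h1 := hpair _ y0 hb2σ (Metric.mem_ball_self hr2)
    have h2 : ‖D ((l, σ) - y0)‖ ≤ ‖D‖ * ‖((l, σ) : ℂ × ℝ) - y0‖ := D.le_opNorm _
    have h3 : ‖((l, σ) : ℂ × ℝ) - y0‖ ≤ |σ - s| + dist l (x + e s) := by
      rw [Prod.norm_def]
      refine max_le ?_ ?_
      · simp only [hy0, Prod.fst_sub]
        rw [← dist_eq_norm]
        linarith [abs_nonneg (σ - s)]
      · simp only [hy0, Prod.snd_sub, Real.norm_eq_abs]
        linarith [dist_nonneg (x := l) (y := x + e s)]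
    have h4 : F y0 = (Ps (x - p)).1 := by simp only [hF, hG0]
    have h5 : H p l σ - (Ps (x - p)).1 = F (l, σ) - F y0 := by rw [h4]; rfl
    rw [h5, ← Real.norm_eq_abs]
    have h6 : ‖F (l, σ) - F y0‖ ≤ ‖F (l, σ) - F y0 - D ((l, σ) - y0)‖ + ‖D ((l, σ) - y0)‖ := by
      have := norm_add_le (F (l, σ) - F y0 - D ((l, σ) - y0)) (D ((l, σ) - y0))
      simpa using this
    calc ‖F (l, σ) - F y0‖ ≤ (‖D‖ + d / 2) * ‖((l, σ) : ℂ × ℝ) - y0‖ := by linarith
      _ ≤ (‖D‖ + d / 2) * (|σ - s| + dist l (x + e s)) :=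
          mul_le_mul_of_nonneg_left h3 (by positivity)

end Pool.Agent.Helper78.DD
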