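import Pool.Agent.Helper78.DD.Geo

/-! # MEAS: Lebesgue density in the coordinates `Th`, and a Lipschitz inverse -/

open MeasureTheory Topology Set

namespace Pool.Agent.Helper78.DD

private lemma meas_null_image (p : ℂ) {N : Set (ℝ × ℝ)} (hN : volume N = 0) :
    volume ((fun z => p + Th z) '' N) = 0 := by
  have hcd : ContDiff ℝ 1 (fun z : ℝ × ℝ => ((p + Th z).re, (p + Th z).im)) := by
    have h1 : ContDiff ℝ 1 (fun z : ℝ × ℝ => p + Th z) := contDiff_const.add contDiff_Th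
    exact (Complex.reCLM.contDiff.comp h1).prodMk (Complex.imCLM.contDiff.comp h1)
  have h0 : volume ((fun z : ℝ × ℝ => ((p + Th z).re, (p + Th z).im)) '' N) = 0 :=
    addHaar_image_eq_zero_of_differentiableOn_of_addHaar_eq_zero volume
      (hcd.differentiable one_ne_zero).differentiableOn hN
  have h1 := Complex.volume_preserving_equiv_real_prod.measure_preimage
    (NullMeasurableSet.of_null h0)
  rw [h0] at h1
  refine measure_mono_null ?_ h1
  rintro _ ⟨z, hz, rfl⟩
  exact ⟨z, hz, rfl⟩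

theorem meas_phi (p : ℂ) {A : Set ℂ} (hA : MeasurableSet A) :
    ∀ᵐ x ∂(volume : Measure ℂ), x ∈ A → x - p ∈ V → ∀ η : ℝ, 0 < η → ∃ r₀ : ℝ, 0 < r₀ ∧
      ∀ r : ℝ, 0 < r → r < r₀ → ∀ Φ : Set ℝ, (∀ φ ∈ Φ, ∀ τ : ℝ, p + Th (φ, τ) ∉ A) →
        volume (Φ ∩ Icc ((Ps (x - p)).1 - r) ((Ps (x - p)).1 + r)) ≤ ENNReal.ofReal (η * r) := by
  set S : Set (ℝ × ℝ) := {z | p + Th z ∈ A}ᶜ with hS
  have hSm : MeasurableSet S := by
    refine MeasurableSet.compl ?_
    exact (measurable_const.add contDiff_Th.continuous.measurable) hA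
  have hdens := Besicovitch.ae_tendsto_measure_inter_div_of_measurableSet
    (volume : Measure (ℝ × ℝ)) hSm
  rw [ae_iff] at hdens
  have hnull := meas_null_image p hdens
  rw [ae_iff]
  refine measure_mono_null ?_ hnull
  intro x hx
  simp only [mem_ofPred_eq] at hx
  push Not at hx
  obtain ⟨hxA, hxV, η, hη, hbad⟩ := hx
  set z := Ps (x - p) with hz
  have hTz : p + Th z = x := by rw [hz, Th_Ps hxV]; ring
  refine ⟨z, ?_, hTz⟩
  intro hten
  have hzS : z ∉ S := by
    rw [hS]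
    simp only [mem_compl_iff, mem_ofPred_eq, not_not]
    rw [hTz]
    exact hxA
  rw [indicator_of_notMem hzS] at hten
  have hη' : 0 < ENNReal.ofReal (η / 2) := ENNReal.ofReal_pos.mpr (by positivity)
  have hev := hten.eventually (gt_mem_nhds hη')
  rw [Filter.eventually_iff, mem_nhdsGT_iff_exists_Ioo_subset] at hev
  obtain ⟨r₀, hr₀, hsub⟩ := hev
  obtain ⟨r, hr, hrr₀, Φ, hΦ, hlt⟩ := hbad r₀ hr₀
  have hr' := hsub ⟨hr, hrr₀⟩
  simp only [mem_ofPred_eq] at hr'
  refine absurd hlt (not_lt.mpr ?_)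
  have hvol : volume (Metric.closedBall z r) = ENNReal.ofReal (2 * r) * ENNReal.ofReal (2 * r) := by
    rw [← closedBall_prod_same, Measure.volume_eq_prod, Measure.prod_prod, Real.volume_closedBall,
      Real.volume_closedBall]
  have h2r : ENNReal.ofReal (2 * r) ≠ 0 := (ENNReal.ofReal_pos.mpr (by positivity)).ne'
  have h2r' : ENNReal.ofReal (2 * r) ≠ ⊤ := ENNReal.ofReal_ne_top
  have h1 : volume (S ∩ Metric.closedBall z r) ≤
      ENNReal.ofReal (η / 2) * (ENNReal.ofReal (2 * r) * ENNReal.ofReal (2 * r)) := by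
    rw [← hvol]
    refine (ENNReal.div_le_iff ?_ ?_).mp hr'.le
    · rw [hvol]; exact mul_ne_zero h2r h2r
    · rw [hvol]; exact ENNReal.mul_ne_top h2r' h2r'
  have h2 : (Φ ∩ Icc (z.1 - r) (z.1 + r)) ×ˢ Icc (z.2 - r) (z.2 + r) ⊆
      S ∩ Metric.closedBall z r := by
    rintro ⟨φ, τ⟩ ⟨⟨hφ, hφr⟩, hτ⟩
    refine ⟨?_, ?_⟩
    · rw [hS]
      exact hΦ φ hφ τ
    · rw [← closedBall_prod_same]
      refine ⟨?_, ?_⟩
      · rw [Real.closedBall_eq_Icc]; exact hφr
      · rw [Real.closedBall_eq_Icc]; exact hτ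
  have h3 := (measure_mono (μ := (volume : Measure (ℝ × ℝ))) h2).trans h1
  rw [Measure.volume_eq_prod, Measure.prod_prod, Real.volume_Icc] at h3
  have h4 : z.2 + r - (z.2 - r) = 2 * r := by ring
  rw [h4, ← mul_assoc] at h3
  have h5 := (ENNReal.mul_le_mul_iff_left h2r h2r').mp h3
  refine h5.trans (le_of_eq ?_)
  rw [← ENNReal.ofReal_mul (by positivity)]
  congr 1
  ring

theorem meas_pre {h : ℝ → ℝ} {s : Set ℝ} {c : ℝ} (hc : 0 < c)
    (hh : ∀ x ∈ s, ∀ y ∈ s, c * |x - y| ≤ |h x - h y|) :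
    volume s ≤ ENNReal.ofReal (1 / c) * volume (h '' s) := by
  have hanti : AntilipschitzWith (Real.toNNReal (1 / c)) (fun x : s => h x) := by
    refine AntilipschitzWith.of_le_mul_dist fun x y => ?_
    have h1 := hh x x.2 y y.2
    rw [Real.coe_toNNReal _ (by positivity), Subtype.dist_eq, Real.dist_eq, Real.dist_eq,
      one_div, inv_mul_eq_div, le_div_iff₀ hc, mul_comm]
    exact h1
  have h1 := hanti.le_hausdorffMeasure_image (d := 1) zero_le_one univ
  have h2 : Measure.hausdorffMeasure 1 (univ : Set s) = volume s := by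
    rw [← isometry_subtype_coe.hausdorffMeasure_image (Or.inl zero_le_one), image_univ,
      Subtype.range_coe, hausdorffMeasure_real]
  rw [h2, hausdorffMeasure_real, ENNReal.rpow_one] at h1
  refine h1.trans (le_of_eq ?_)
  congr 2
  ext y
  simp

end Pool.Agent.Helper78.DD
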