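import Mathlib

/-!
Sets without large regular subsets: definition.
-/

open MeasureTheory Topology

namespace Pool.Agent.Helper78.DD

/-- `S` is wild: every Lebesgue measurable subset of `S` is a null set, and every subset of `S` with the
property of Baire is meagre. -/
def Wild (S : Set ℂ) : Prop :=
  ∀ A ⊆ S, (NullMeasurableSet A volume → volume A = 0) ∧ (BaireMeasurableSet A → IsMeagre A)

end Pool.Agent.Helper78.DD
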