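import Pool.Agent.Helper78.DD.Geo
import Pool.Agent.Helper78.DD.Meas
import Pool.Agent.Helper78.DD.Cat
import Pool.Agent.Helper78.DD.Col
import Pool.Agent.Helper78.DD.Wild

/-! # Everywhere dense 3-colourings of two small discs have wild classes -/

open MeasureTheory Topology Set Filter

namespace Pool.Agent.Helper78.DD

/-- Three sets with the properties of the colour classes. -/
structure Tri (ε : ℝ) (X Y Z : Set ℂ) : Prop where
  cover : ∀ z ∈ P ε, z ∈ X ∨ z ∈ Y ∨ z ∈ Z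
  pX : ∀ x ∈ X, ∀ y ∈ X, dist x y ≠ 1
  pY : ∀ x ∈ Y, ∀ y ∈ Y, dist x y ≠ 1
  pZ : ∀ x ∈ Z, ∀ y ∈ Z, dist x y ≠ 1
  dX : ∀ z ∈ P ε, ∀ r : ℝ, 0 < r → ∃ w ∈ X, dist w z < r
  dY : ∀ z ∈ P ε, ∀ r : ℝ, 0 < r → ∃ w ∈ Y, dist w z < r
  dZ : ∀ z ∈ P ε, ∀ r : ℝ, 0 < r → ∃ w ∈ Z, dist w z < r

/-- The position of `x` with respect to `p`. -/
structure Good (ε : ℝ) (x p : ℂ) : Prop where
  x0 : x ∈ Metric.ball (0 : ℂ) ε
  v : x - p ∈ V
  s : Real.sin (0 - (Ps (x - p)).2) ≠ 0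
  y : p + e (Ps (x - p)).1 ∈ Metric.ball (1 : ℂ) ε

theorem main_mirror_mem {ε : ℝ} {z : ℂ} : 1 - z ∈ P ε ↔ z ∈ P ε := by
  unfold P
  simp only [mem_union, Metric.mem_ball, dist_eq_norm]
  have h1 : ‖1 - z - 0‖ = ‖z - 1‖ := by rw [sub_zero, norm_sub_rev]
  have h2 : ‖1 - z - 1‖ = ‖z - 0‖ := by
    rw [show (1 : ℂ) - z - 1 = -(z - 0) by ring, norm_neg]
  rw [h1, h2, or_comm]

theorem main_mirror_dist (z w : ℂ) : dist (1 - z) (1 - w) = dist z w := by
  rw [dist_eq_norm, dist_eq_norm, show (1 : ℂ) - z - (1 - w) = -(z - w) by ring, norm_neg]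

theorem Tri.mirror {ε : ℝ} {X Y Z : Set ℂ} (T : Tri ε X Y Z) :
    Tri ε ((fun z => 1 - z) ⁻¹' X) ((fun z => 1 - z) ⁻¹' Y) ((fun z => 1 - z) ⁻¹' Z) := by
  have hd : ∀ X : Set ℂ, (∀ z ∈ P ε, ∀ r : ℝ, 0 < r → ∃ w ∈ X, dist w z < r) →
      ∀ z ∈ P ε, ∀ r : ℝ, 0 < r → ∃ w ∈ (fun z => 1 - z) ⁻¹' X, dist w z < r := by
    intro X hX z hz r hr
    obtain ⟨w, hw, hwr⟩ := hX (1 - z) (main_mirror_mem.2 hz) r hr
    refine ⟨1 - w, by simpa using hw, ?_⟩
    rw [← main_mirror_dist]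
    simpa using hwr
  exact
    { cover := fun z hz => T.cover (1 - z) (main_mirror_mem.2 hz)
      pX := fun x hx y hy h => T.pX _ hx _ hy (by rw [main_mirror_dist]; exact h)
      pY := fun x hx y hy h => T.pY _ hx _ hy (by rw [main_mirror_dist]; exact h)
      pZ := fun x hx y hy h => T.pZ _ hx _ hy (by rw [main_mirror_dist]; exact h)
      dX := hd X T.dX
      dY := hd Y T.dY
      dZ := hd Z T.dZ }

theorem main_Ps_I {δ : ℝ} (h0 : 0 < δ) :
    Ps (δ * Complex.I) = (Real.arcsin (δ / 2), -Real.arcsin (δ / 2)) := by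
  unfold Ps
  have h1 : -Complex.I * (δ * Complex.I) = (δ : ℂ) := by
    have := Complex.I_mul_I
    linear_combination (-(δ : ℂ)) * this
  rw [h1, Complex.arg_ofReal_of_nonneg h0.le, norm_mul, Complex.norm_I, mul_one, Complex.norm_real,
    Real.norm_eq_abs, abs_of_pos h0]
  simp

theorem main_e_zero : e 0 = 1 := by unfold e; simp

theorem main_pick {ε : ℝ} {x : ℂ} (hx : x ∈ Metric.ball (0 : ℂ) ε) :
    ∃ q ∈ Metric.ball (0 : ℂ) ε, ∃ ρ : ℝ, 0 < ρ ∧
      ∀ y p : ℂ, dist y x < ρ → dist p q < ρ → Good ε y p := by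
  -- the choice of `δ`
  have h1 : ∀ᶠ δ : ℝ in 𝓝 0, x - δ * Complex.I ∈ Metric.ball (0 : ℂ) ε := by
    have hc : Continuous fun δ : ℝ => x - δ * Complex.I := by fun_prop
    refine hc.continuousAt.eventually_mem (Metric.isOpen_ball.mem_nhds ?_)
    simpa using hx
  have h2 : ∀ᶠ δ : ℝ in 𝓝 0, x - δ * Complex.I + e (Real.arcsin (δ / 2)) ∈
      Metric.ball (1 : ℂ) ε := by
    have hc : Continuous fun δ : ℝ => x - δ * Complex.I + e (Real.arcsin (δ / 2)) := by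
      have := continuous_e
      have := Real.continuous_arcsin
      fun_prop
    refine hc.continuousAt.eventually_mem (Metric.isOpen_ball.mem_nhds ?_)
    rw [Metric.mem_ball, dist_eq_norm] at hx ⊢
    simpa [main_e_zero] using hx
  have h3 : ∀ᶠ δ : ℝ in 𝓝 0, δ < 2 := eventually_lt_nhds (by norm_num)
  have h4 : ∀ᶠ δ : ℝ in 𝓝[>] 0, (x - δ * Complex.I ∈ Metric.ball (0 : ℂ) ε ∧
      x - δ * Complex.I + e (Real.arcsin (δ / 2)) ∈ Metric.ball (1 : ℂ) ε ∧ δ < 2) ∧ 0 < δ :=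
    (((h1.and (h2.and h3)).filter_mono nhdsWithin_le_nhds)).and self_mem_nhdsWithin
  obtain ⟨δ, ⟨hq, hy, hδ2⟩, hδ⟩ := h4.exists
  set q : ℂ := x - δ * Complex.I with hqdef
  have hxq : x - q = δ * Complex.I := by rw [hqdef]; ring
  have hV : x - q ∈ V := by
    rw [hxq]
    refine ⟨?_, ?_⟩
    · simpa using hδ
    · rw [norm_mul, Complex.norm_I, mul_one, Complex.norm_real, Real.norm_eq_abs, abs_of_pos hδ]
      exact hδ2
  have hPs : Ps (x - q) = (Real.arcsin (δ / 2), -Real.arcsin (δ / 2)) := by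
    rw [hxq, main_Ps_I hδ]
  -- all conditions are open
  have hsub : Continuous fun z : ℂ × ℂ => z.1 - z.2 := by fun_prop
  have hcP : ContinuousAt (fun z : ℂ × ℂ => Ps (z.1 - z.2)) (x, q) :=
    ContinuousAt.comp (g := Ps) (f := fun z : ℂ × ℂ => z.1 - z.2) (contDiffAt_Ps hV).continuousAt
      hsub.continuousAt
  have e1 : ∀ᶠ z : ℂ × ℂ in 𝓝 (x, q), z.1 ∈ Metric.ball (0 : ℂ) ε :=
    continuous_fst.continuousAt.eventually_mem (Metric.isOpen_ball.mem_nhds hx)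
  have e2 : ∀ᶠ z : ℂ × ℂ in 𝓝 (x, q), z.1 - z.2 ∈ V :=
    hsub.continuousAt.eventually_mem (isOpen_V.mem_nhds hV)
  have e3 : ∀ᶠ z : ℂ × ℂ in 𝓝 (x, q), Real.sin (0 - (Ps (z.1 - z.2)).2) ≠ 0 := by
    have hc : ContinuousAt (fun z : ℂ × ℂ => Real.sin (0 - (Ps (z.1 - z.2)).2)) (x, q) :=
      Real.continuous_sin.continuousAt.comp (continuousAt_const.sub hcP.snd)
    refine hc.eventually_ne ?_
    simp only [hPs, zero_sub, neg_neg]
    rw [Real.sin_arcsin (by linarith) (by linarith)]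
    positivity
  have e4 : ∀ᶠ z : ℂ × ℂ in 𝓝 (x, q), z.2 + e (Ps (z.1 - z.2)).1 ∈ Metric.ball (1 : ℂ) ε := by
    have hc : ContinuousAt (fun z : ℂ × ℂ => z.2 + e (Ps (z.1 - z.2)).1) (x, q) :=
      continuous_snd.continuousAt.add (ContinuousAt.comp (g := e)
        (f := fun z : ℂ × ℂ => (Ps (z.1 - z.2)).1) continuous_e.continuousAt hcP.fst)
    refine hc.eventually_mem (Metric.isOpen_ball.mem_nhds ?_)
    simp only [hPs]
    exact hy
  obtain ⟨ρ, hρ, hb⟩ := Metric.eventually_nhds_iff_ball.1 (e1.and (e2.and (e3.and e4)))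
  refine ⟨q, hq, ρ, hρ, fun y p hy hp => ?_⟩
  obtain ⟨a1, a2, a3, a4⟩ := hb (y, p) (by
    rw [Metric.mem_ball, Prod.dist_eq]
    exact max_lt hy hp)
  exact ⟨a1, a2, a3, a4⟩

theorem main_dist1 (p : ℂ) (φ : ℝ) : dist (p + e φ) p = 1 := by
  rw [dist_eq_norm, add_sub_cancel_left, norm_e]

theorem main_dist2 {x p : ℂ} (h : x - p ∈ V) : dist (p + e (Ps (x - p)).1) x = 1 := by
  have h1 := Th_Ps h
  unfold Th at h1
  rw [dist_eq_norm]
  have h2 : p + e (Ps (x - p)).1 - x = e (Ps (x - p)).2 := by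
    linear_combination h1
  rw [h2, norm_e]

theorem main_key {ε : ℝ} {X Y Z : Set ℂ} (T : Tri ε X Y Z) {x0 p p' : ℂ} (hp : p ∈ Y) (hp' : p' ∈ Z)
    (g : Good ε x0 p) (g' : Good ε x0 p') :
    ∃ c C r : ℝ, 0 < c ∧ 0 < C ∧ 0 < r ∧ ∀ s : ℝ, 0 < s → s < r → ∃ h h' : ℝ → ℝ,
      ContinuousOn h (Ioo (-s) s) ∧ ContinuousOn h' (Ioo (-s) s) ∧
      (∀ σ ∈ Ioo (-s) s, ∀ σ' ∈ Ioo (-s) s,
        c * |σ - σ'| ≤ |h σ - h σ'| ∧ c * |σ - σ'| ≤ |h' σ - h' σ'|) ∧
      (∀ σ ∈ Ioo (-s) s, |h σ - (Ps (x0 - p)).1| ≤ C * s ∧ |h' σ - (Ps (x0 - p')).1| ≤ C * s) ∧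
      (∀ σ ∈ Ioo (-s) s, p + e (h σ) ∈ X ∨ p' + e (h' σ) ∈ X) := by
  obtain ⟨c, C, r, hc, hC, hr, hH⟩ := geo_H g.v g.s
  obtain ⟨c', C', r', hc', hC', hr', hH'⟩ := geo_H g'.v g'.s
  rw [main_e_zero] at hH hH'
  -- radii
  obtain ⟨ρ0, hρ0, hb0⟩ := Metric.isOpen_ball.mem_nhds g.x0 |> Metric.mem_nhds_iff.1
  obtain ⟨ρe, hρe, hbe⟩ := Metric.continuousAt_iff.1 (continuous_e.continuousAt (x := 0)) (ρ0 / 2)
    (by positivity)
  have hy1 : ContinuousAt (fun φ : ℝ => p + e φ) (Ps (x0 - p)).1 :=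
    (continuous_const.add continuous_e).continuousAt
  have hy1' : ContinuousAt (fun φ : ℝ => p' + e φ) (Ps (x0 - p')).1 :=
    (continuous_const.add continuous_e).continuousAt
  obtain ⟨ρ1, hρ1, hb1⟩ := Metric.eventually_nhds_iff.1
    (hy1.eventually_mem (Metric.isOpen_ball.mem_nhds g.y))
  obtain ⟨ρ1', hρ1', hb1'⟩ := Metric.eventually_nhds_iff.1
    (hy1'.eventually_mem (Metric.isOpen_ball.mem_nhds g'.y))
  have hx1 : x0 + 1 ∈ P ε := by
    right
    have := g.x0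
    rw [Metric.mem_ball, dist_eq_norm] at this ⊢
    simpa using this
  set CC : ℝ := 2 * max C C' with hCC
  have hCm : 0 < max C C' := lt_max_of_lt_left hC
  have hCCpos : 0 < CC := by positivity
  refine ⟨min c c', CC, min (min r r') (min (min (ρ0 / 2) ρe) (min (ρ1 / CC) (ρ1' / CC))),
    lt_min hc hc', hCCpos, by positivity, ?_⟩
  intro s hs hsr
  have s1 : s < r := hsr.trans_le ((min_le_left _ _).trans (min_le_left _ _))
  have s2 : s < r' := hsr.trans_le ((min_le_left _ _).trans (min_le_right _ _))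
  have s3 : s < ρ0 / 2 :=
    hsr.trans_le ((min_le_right _ _).trans ((min_le_left _ _).trans (min_le_left _ _)))
  have s4 : s < ρe :=
    hsr.trans_le ((min_le_right _ _).trans ((min_le_left _ _).trans (min_le_right _ _)))
  have s5 : s < ρ1 / CC :=
    hsr.trans_le ((min_le_right _ _).trans ((min_le_right _ _).trans (min_le_left _ _)))
  have s6 : s < ρ1' / CC :=
    hsr.trans_le ((min_le_right _ _).trans ((min_le_right _ _).trans (min_le_right _ _)))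
  rw [lt_div_iff₀ hCCpos] at s5 s6
  obtain ⟨l, hl, hls⟩ := T.dX (x0 + 1) hx1 s hs
  have habs : ∀ σ ∈ Ioo (-s) s, |σ - 0| < s := fun σ hσ => by
    rw [sub_zero]; exact abs_lt.2 ⟨hσ.1, hσ.2⟩
  have hle : ∀ D : ℝ, D ≤ max C C' → 0 < D → ∀ σ ∈ Ioo (-s) s,
      D * (|σ - 0| + dist l (x0 + 1)) ≤ CC * s := by
    intro D hD hD0 σ hσ
    have h1 := habs σ hσ
    calc D * (|σ - 0| + dist l (x0 + 1)) ≤ D * (s + s) :=
          mul_le_mul_of_nonneg_left (by linarith) hD0.le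
      _ ≤ max C C' * (s + s) := mul_le_mul_of_nonneg_right hD (by linarith)
      _ = CC * s := by rw [hCC]; ring
  have A := fun σ (hσ : σ ∈ Ioo (-s) s) σ' (hσ' : σ' ∈ Ioo (-s) s) =>
    hH l (hls.trans s1) σ σ' ((habs σ hσ).trans s1) ((habs σ' hσ').trans s1)
  have A' := fun σ (hσ : σ ∈ Ioo (-s) s) σ' (hσ' : σ' ∈ Ioo (-s) s) =>
    hH' l (hls.trans s2) σ σ' ((habs σ hσ).trans s2) ((habs σ' hσ').trans s2)
  have B : ∀ σ ∈ Ioo (-s) s, |H p l σ - (Ps (x0 - p)).1| ≤ CC * s := fun σ hσ =>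
    (A σ hσ σ hσ).2.2.trans (hle C (le_max_left _ _) hC σ hσ)
  have B' : ∀ σ ∈ Ioo (-s) s, |H p' l σ - (Ps (x0 - p')).1| ≤ CC * s := fun σ hσ =>
    (A' σ hσ σ hσ).2.2.trans (hle C' (le_max_right _ _) hC' σ hσ)
  have hcont : ∀ p : ℂ, (∀ σ ∈ Ioo (-s) s, l - e σ - p ∈ V) → ContinuousOn (H p l) (Ioo (-s) s) := by
    intro p hV σ hσ
    have h1 : ContinuousAt (fun σ : ℝ => l - e σ - p) σ :=
      ((continuous_const.sub continuous_e).sub continuous_const).continuousAt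
    have h2 : ContinuousAt (fun σ : ℝ => Ps (l - e σ - p)) σ :=
      ContinuousAt.comp (g := Ps) (f := fun σ : ℝ => l - e σ - p)
        (contDiffAt_Ps (hV σ hσ)).continuousAt h1
    exact h2.fst.continuousWithinAt
  refine ⟨H p l, H p' l, hcont p fun σ hσ => (A σ hσ σ hσ).1, hcont p' fun σ hσ => (A' σ hσ σ hσ).1,
    ?_, fun σ hσ => ⟨B σ hσ, B' σ hσ⟩, ?_⟩
  · intro σ hσ σ' hσ'
    exact ⟨(mul_le_mul_of_nonneg_right (min_le_left _ _) (abs_nonneg _)).trans (A σ hσ σ' hσ').2.1,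
      (mul_le_mul_of_nonneg_right (min_le_right _ _) (abs_nonneg _)).trans (A' σ hσ σ' hσ').2.1⟩
  · intro σ hσ
    by_contra hcon
    push Not at hcon
    obtain ⟨hc1, hc2⟩ := hcon
    -- the point `x`
    set x : ℂ := l - e σ with hxdef
    have hxl : dist x l = 1 := by
      rw [hxdef, dist_eq_norm, sub_sub_cancel_left, norm_neg, norm_e]
    have hxP : x ∈ P ε := by
      left
      apply hb0
      rw [Metric.mem_ball]
      have h1 : dist x x0 ≤ dist l (x0 + 1) + dist (e σ) (e 0) := by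
        rw [dist_eq_norm, dist_eq_norm, dist_eq_norm, main_e_zero]
        calc ‖x - x0‖ = ‖(l - (x0 + 1)) - (e σ - 1)‖ := by rw [hxdef]; congr 1; ring
          _ ≤ _ := norm_sub_le _ _
      have h2 : dist (e σ) (e 0) < ρ0 / 2 := hbe (by
        rw [Real.dist_eq]; exact (habs σ hσ).trans s4)
      linarith
    have hxX : x ∉ X := fun h => T.pX x h l hl hxl
    have hyP : p + e (H p l σ) ∈ P ε := by
      right
      apply hb1
      rw [Real.dist_eq]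
      exact (B σ hσ).trans_lt (by linarith)
    have hyP' : p' + e (H p' l σ) ∈ P ε := by
      right
      apply hb1'
      rw [Real.dist_eq]
      exact (B' σ hσ).trans_lt (by linarith)
    have hyx : dist (p + e (H p l σ)) x = 1 := main_dist2 (A σ hσ σ hσ).1
    have hyx' : dist (p' + e (H p' l σ)) x = 1 := main_dist2 (A' σ hσ σ hσ).1
    have hyY : p + e (H p l σ) ∉ Y := fun h => T.pY _ h _ hp (main_dist1 _ _)
    have hyZ' : p' + e (H p' l σ) ∉ Z := fun h => T.pZ _ h _ hp' (main_dist1 _ _)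
    have hyZ : p + e (H p l σ) ∈ Z := by
      rcases T.cover _ hyP with h | h | h
      · exact absurd h hc1
      · exact absurd h hyY
      · exact h
    have hyY' : p' + e (H p' l σ) ∈ Y := by
      rcases T.cover _ hyP' with h | h | h
      · exact absurd h hc2
      · exact h
      · exact absurd h hyZ'
    rcases T.cover x hxP with h | h | h
    · exact hxX h
    · exact T.pY _ hyY' _ h hyx'
    · exact T.pZ _ hyZ _ h hyx

end Pool.Agent.Helper78.DD
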